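import Mathlib

/-!
Digits with respect to a `G`-adic sequence, and the greedy criterion for
sums of elements with prescribed digit supports.
-/

namespace Pool.Agent.Q136.GA

open Finset

/-- A `G`-adic sequence. -/
structure IsGadic (g : ℕ → ℕ) : Prop where
  zero : g 0 = 1
  dvd : ∀ i, g i ∣ g (i + 1)
  lt : ∀ i, g i < g (i + 1)

/-- `q g j = g (j+1) / g j` (written `d_{j+1}`). -/
def q (g : ℕ → ℕ) (j : ℕ) : ℕ := g (j + 1) / g j

/-- The `j`-th digit of `n`. -/
def dig (g : ℕ → ℕ) (n j : ℕ) : ℕ := n / g j % q g j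

/-- Numbers whose digits vanish outside `W`. -/
def Z (g : ℕ → ℕ) (W : Set ℕ) : Set ℕ := {n | ∀ j, j ∉ W → dig g n j = 0}

open Classical in
/-- The largest number below `g J` whose digits vanish outside `W`. -/
noncomputable def m (g : ℕ → ℕ) (W : Set ℕ) (J : ℕ) : ℕ :=
  ∑ j ∈ range J, if j ∈ W then (q g j - 1) * g j else 0

open Classical in
/-- The part of `n` supported in `W`, digits below `J`. -/
noncomputable def partJ (g : ℕ → ℕ) (W : Set ℕ) (n J : ℕ) : ℕ :=
  ∑ j ∈ range J, if j ∈ W then dig g n j * g j else 0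

variable {g : ℕ → ℕ}

theorem IsGadic.pos (hg : IsGadic g) (i : ℕ) : 0 < g i := by
  induction i with
  | zero => rw [hg.zero]; exact one_pos
  | succ i ih => exact lt_trans ih (hg.lt i)

theorem IsGadic.mono (hg : IsGadic g) : StrictMono g := strictMono_nat_of_lt_succ hg.lt

theorem IsGadic.le (hg : IsGadic g) (i : ℕ) : i < g i := by
  induction i with
  | zero => rw [hg.zero]; exact one_pos
  | succ i ih => exact lt_of_le_of_lt (Nat.succ_le_of_lt ih) (hg.lt i)

theorem g_succ (hg : IsGadic g) (i : ℕ) : g (i + 1) = g i * q g i :=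
  (Nat.mul_div_cancel' (hg.dvd i)).symm

theorem q_two (hg : IsGadic g) (i : ℕ) : 2 ≤ q g i := by
  by_contra h
  push Not at h
  have h1 := g_succ hg i
  have h2 := hg.lt i
  have h3 : g i * q g i ≤ g i * 1 := Nat.mul_le_mul_left _ (by omega)
  omega

theorem g_dvd (hg : IsGadic g) {i j : ℕ} (h : i ≤ j) : g i ∣ g j := by
  induction j, h using Nat.le_induction with
  | base => exact dvd_rfl
  | succ j _ ih => exact dvd_trans ih (hg.dvd j)

theorem dig_lt (hg : IsGadic g) (n j : ℕ) : dig g n j < q g j :=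
  Nat.mod_lt _ (by have := q_two hg j; omega)

theorem mod_succ (hg : IsGadic g) (n J : ℕ) :
    n % g (J + 1) = n % g J + dig g n J * g J := by
  rw [g_succ hg, Nat.mod_mul, dig, mul_comm (g J)]

theorem mod_eq_sum (hg : IsGadic g) (n J : ℕ) :
    n % g J = ∑ j ∈ range J, dig g n j * g j := by
  induction J with
  | zero => simp [hg.zero, Nat.mod_one]
  | succ J ih => rw [mod_succ hg, sum_range_succ, ih]

theorem dig_eq_zero_of_lt (_ : IsGadic g) {n j : ℕ} (h : n < g j) : dig g n j = 0 := by
  rw [dig, Nat.div_eq_of_lt h, Nat.zero_mod]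

/-- Reading off the digits of an explicit digit sum. -/
theorem dig_sum (hg : IsGadic g) (J : ℕ) (s : ℕ → ℕ) (hs : ∀ j < J, s j < q g j) :
    (∑ j ∈ range J, s j * g j < g J) ∧
      ∀ j < J, dig g (∑ i ∈ range J, s i * g i) j = s j := by
  induction J with
  | zero => simp [hg.zero]
  | succ J ih =>
    obtain ⟨h1, h2⟩ := ih fun j hj => hs j (by omega)
    rw [sum_range_succ]
    have hJ := hs J (by omega)
    have hgp := hg.pos J
    constructor
    · rw [g_succ hg]
      have : (s J + 1) * g J ≤ q g J * g J := Nat.mul_le_mul_right _ (by omega)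
      nlinarith
    · intro j hj
      rcases Nat.lt_succ_iff_lt_or_eq.mp hj with h | rfl
      · rw [← h2 j h]
        unfold dig
        obtain ⟨c, hc⟩ := g_dvd hg (show j + 1 ≤ J by omega)
        rw [hc, g_succ hg j]
        have e : s J * (g j * q g j * c) = g j * (q g j * (s J * c)) := by ring
        rw [e, Nat.add_mul_div_left _ _ (hg.pos j), Nat.add_mul_mod_self_left]
      · unfold dig
        rw [Nat.add_mul_div_right _ _ hgp, Nat.div_eq_of_lt h1, zero_add]
        exact Nat.mod_eq_of_lt hJ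

theorem ext_dig (hg : IsGadic g) {n k : ℕ} (h : ∀ j, dig g n j = dig g k j) : n = k := by
  have hn : n < g (n + k) := lt_of_le_of_lt (by omega) (hg.le _)
  have hk : k < g (n + k) := lt_of_le_of_lt (by omega) (hg.le _)
  have e1 := mod_eq_sum hg n (n + k)
  have e2 := mod_eq_sum hg k (n + k)
  rw [Nat.mod_eq_of_lt hn] at e1
  rw [Nat.mod_eq_of_lt hk] at e2
  calc n = _ := e1
    _ = _ := sum_congr rfl fun j _ => by rw [h]
    _ = k := e2.symm

theorem zero_mem_Z (W : Set ℕ) : 0 ∈ Z g W := fun j _ => by simp [dig]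

/-- Bound for elements supported in `W`. -/
theorem mod_le_m (hg : IsGadic g) {W : Set ℕ} {n : ℕ} (hn : n ∈ Z g W) (J : ℕ) :
    n % g J ≤ m g W J := by
  classical
  rw [mod_eq_sum hg, m]
  apply sum_le_sum
  intro j _
  by_cases hj : j ∈ W
  · rw [if_pos hj]
    exact Nat.mul_le_mul_right _ (by have := dig_lt hg n j; omega)
  · rw [if_neg hj, hn j hj, zero_mul]

/-- Digits of a sum supported in `W`. -/
theorem sum_mem_Z (hg : IsGadic g) (W : Set ℕ) (J : ℕ) (s : ℕ → ℕ)
    (hs : ∀ j < J, s j < q g j) (hW : ∀ j < J, j ∉ W → s j = 0) :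
    ∑ j ∈ range J, s j * g j ∈ Z g W := by
  intro j hj
  obtain ⟨h1, h2⟩ := dig_sum hg J s hs
  rcases Nat.lt_or_ge j J with h | h
  · rw [h2 j h, hW j h hj]
  · exact dig_eq_zero_of_lt hg (lt_of_lt_of_le h1 (hg.mono.monotone h))

theorem partJ_eq (W : Set ℕ) (n J : ℕ) [DecidablePred (· ∈ W)] :
    partJ g W n J = ∑ j ∈ range J, (if j ∈ W then dig g n j else 0) * g j := by
  unfold partJ
  apply sum_congr rfl
  intro j _
  by_cases h : j ∈ W <;> simp [h]

theorem partJ_mem (hg : IsGadic g) (W : Set ℕ) (n J : ℕ) : partJ g W n J ∈ Z g W := by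
  classical
  rw [partJ_eq]
  apply sum_mem_Z hg
  · intro j _
    split
    · exact dig_lt hg n j
    · have := q_two hg j; omega
  · intro j _ h
    simp [h]

theorem m_eq (W : Set ℕ) (J : ℕ) [DecidablePred (· ∈ W)] :
    m g W J = ∑ j ∈ range J, (if j ∈ W then (q g j - 1) else 0) * g j := by
  unfold m
  apply sum_congr rfl
  intro j _
  by_cases h : j ∈ W <;> simp [h]

theorem m_mem (hg : IsGadic g) (W : Set ℕ) (J : ℕ) : m g W J ∈ Z g W := by
  classical
  rw [m_eq]
  apply sum_mem_Z hg
  · intro j _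
    have := q_two hg j
    split <;> omega
  · intro j _ h
    simp [h]

theorem m_lt (hg : IsGadic g) (W : Set ℕ) (J : ℕ) : m g W J < g J := by
  classical
  rw [m_eq]
  refine (dig_sum hg J _ ?_).1
  intro j _
  have := q_two hg j
  split <;> omega

open Classical in
theorem m_succ (W : Set ℕ) (J : ℕ) :
    m g W (J + 1) = m g W J + if J ∈ W then (q g J - 1) * g J else 0 := by
  unfold m
  rw [sum_range_succ]

theorem m_succ_of_mem {W : Set ℕ} {J : ℕ} (h : J ∈ W) :
    m g W (J + 1) = m g W J + (q g J - 1) * g J := by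
  classical
  rw [m_succ, if_pos h]

theorem m_succ_of_not {W : Set ℕ} {J : ℕ} (h : J ∉ W) :
    m g W (J + 1) = m g W J := by
  classical
  rw [m_succ, if_neg h, add_zero]

theorem m_zero (W : Set ℕ) : m g W 0 = 0 := by
  classical
  simp [m]

theorem m_mod (hg : IsGadic g) (W : Set ℕ) {I J : ℕ} (h : I ≤ J) : m g W J % g I = m g W I := by
  induction J, h using Nat.le_induction with
  | base => exact Nat.mod_eq_of_lt (m_lt hg W I)
  | succ J hJ ih =>
    classical
    rw [m_succ]
    obtain ⟨c, hc⟩ := g_dvd hg hJ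
    split
    · rw [hc]
      have e : (q g J - 1) * (g I * c) = g I * ((q g J - 1) * c) := by ring
      rw [e, Nat.add_mul_mod_self_left, ih]
    · rw [add_zero, ih]

/-- Splitting a bounded number into bounded parts. -/
theorem split_le {ι : Type*} (T : Finset ι) (b : ι → ℕ) (s : ℕ) (hs : s ≤ ∑ i ∈ T, b i) :
    ∃ f : ι → ℕ, (∀ i ∈ T, f i ≤ b i) ∧ ∑ i ∈ T, f i = s := by
  classical
  induction T using Finset.induction_on generalizing s with
  | empty => exact ⟨fun _ => 0, by simp, by simpa using (Nat.le_zero.mp (by simpa using hs)).symm⟩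
  | insert a T ha ih =>
    rw [sum_insert ha] at hs
    obtain ⟨f, hf, hfs⟩ := ih (s - min s (b a)) (by omega)
    refine ⟨fun i => if i = a then min s (b a) else f i, ?_, ?_⟩
    · intro i hi
      rcases mem_insert.mp hi with rfl | hi
      · simp
      · have : i ≠ a := fun h => ha (h ▸ hi)
        simp only [this, if_false]
        exact hf i hi
    · rw [sum_insert ha]
      have : ∑ i ∈ T, (if i = a then min s (b a) else f i) = ∑ i ∈ T, f i :=
        sum_congr rfl fun i hi => by
          have : i ≠ a := fun h => ha (h ▸ hi)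
          simp [this]
      rw [this, hfs]
      simp only [if_true]
      omega

/-- The greedy criterion, finite version. -/
theorem criterion_fin (hg : IsGadic g) {ι : Type*} [Fintype ι] (W : ι → Set ℕ) (J : ℕ) :
    ∀ n : ℕ, (∀ I < J, n % g I ≤ ∑ i, m g (W i) I) → n ≤ ∑ i, m g (W i) J →
      ∃ x : ι → ℕ, (∀ i, x i ∈ Z g (W i) ∧ x i < g J) ∧ n = ∑ i, x i := by
  classical
  induction J with
  | zero =>
    intro n _ hn
    refine ⟨fun _ => 0, fun i => ⟨zero_mem_Z _, hg.pos 0⟩, ?_⟩
    simp only [m_zero, sum_const_zero] at hn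
    simp; omega
  | succ J ih =>
    intro n h1 h2
    have hgp := hg.pos J
    set b : ι → ℕ := fun i => if J ∈ W i then q g J - 1 else 0 with hb
    have hsum : ∑ i, m g (W i) (J + 1) = ∑ i, m g (W i) J + (∑ i, b i) * g J := by
      rw [Finset.sum_mul, ← Finset.sum_add_distrib]
      apply sum_congr rfl
      intro i _
      rw [m_succ, hb]
      by_cases h : J ∈ W i <;> simp [h]
    have hr := h1 J (by omega)
    obtain ⟨s, hs1, hs2, hs3⟩ : ∃ s, s ≤ ∑ i, b i ∧ s * g J ≤ n ∧
        n - s * g J ≤ ∑ i, m g (W i) J := by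
      have hn := Nat.div_add_mod n (g J)
      rcases Nat.lt_or_ge (∑ i, b i) (n / g J) with h | h
      · refine ⟨∑ i, b i, le_rfl, ?_, ?_⟩
        · calc (∑ i, b i) * g J ≤ n / g J * g J := Nat.mul_le_mul_right _ h.le
            _ ≤ n := Nat.div_mul_le_self _ _
        · omega
      · refine ⟨n / g J, h, Nat.div_mul_le_self _ _, ?_⟩
        rw [mul_comm]
        omega
    obtain ⟨f, hf, hfs⟩ := split_le univ b s hs1
    obtain ⟨x, hx, hxs⟩ := ih (n - s * g J) (by
      intro I hI
      obtain ⟨c, hc⟩ := g_dvd hg hI.le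
      have e : n = (n - s * g J) + g I * (s * c) := by
        have : g I * (s * c) = s * g J := by rw [hc]; ring
        rw [this]; omega
      have := h1 I (by omega)
      rw [e, Nat.add_mul_mod_self_left] at this
      exact this) hs3
    refine ⟨fun i => x i + f i * g J, ?_, ?_⟩
    · intro i
      have hfi := hf i (mem_univ i)
      have hq := q_two hg J
      have hfq : f i < q g J := by
        simp only [hb] at hfi
        split at hfi <;> omega
      have hxi := hx i
      have hlt : x i + f i * g J < g (J + 1) := by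
        rw [g_succ hg]
        have : (f i + 1) * g J ≤ q g J * g J := Nat.mul_le_mul_right _ (by omega)
        have := hxi.2
        nlinarith
      refine ⟨?_, hlt⟩
      intro j hj
      show dig g (x i + f i * g J) j = 0
      rcases lt_trichotomy j J with h | h | h
      · have := hxi.1 j hj
        unfold dig at this ⊢
        obtain ⟨c, hc⟩ := g_dvd hg (show j + 1 ≤ J by omega)
        rw [hc, g_succ hg j]
        have e : f i * (g j * q g j * c) = g j * (q g j * (f i * c)) := by ring
        rw [e, Nat.add_mul_div_left _ _ (hg.pos j), Nat.add_mul_mod_self_left]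
        exact this
      · subst h
        have : f i = 0 := by
          simp only [hb, hj, if_false] at hfi
          omega
        rw [this, zero_mul, add_zero]
        exact dig_eq_zero_of_lt hg hxi.2
      · exact dig_eq_zero_of_lt hg (lt_of_lt_of_le hlt (hg.mono.monotone h))
    · rw [Finset.sum_add_distrib, ← Finset.sum_mul, hfs, ← hxs]
      omega

/-- The greedy criterion. -/
theorem criterion (hg : IsGadic g) {ι : Type*} [Fintype ι] (W : ι → Set ℕ) (n : ℕ)
    (h : ∀ J, n % g J ≤ ∑ i, m g (W i) J) :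
    ∃ x : ι → ℕ, (∀ i, x i ∈ Z g (W i)) ∧ n = ∑ i, x i := by
  obtain ⟨x, hx, hxs⟩ := criterion_fin hg W n n (fun I _ => h I) (by
    have := h n
    rwa [Nat.mod_eq_of_lt (hg.le n)] at this)
  exact ⟨x, fun i => (hx i).1, hxs⟩

theorem sum_mod_le {ι : Type*} (T : Finset ι) (x : ι → ℕ) (k : ℕ) :
    (∑ i ∈ T, x i) % k ≤ ∑ i ∈ T, x i % k := by
  rw [Finset.sum_nat_mod]
  exact Nat.mod_le _ _

theorem criterion_conv (hg : IsGadic g) {ι : Type*} [Fintype ι] (W : ι → Set ℕ) (x : ι → ℕ)
    (hx : ∀ i, x i ∈ Z g (W i)) (J : ℕ) : (∑ i, x i) % g J ≤ ∑ i, m g (W i) J :=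
  (sum_mod_le _ _ _).trans (sum_le_sum fun i _ => mod_le_m hg (hx i) J)

end Pool.Agent.Q136.GA
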