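import Pool.Agent.Q136.GA.Two

/-!
Minimality: cofinite parts.
-/

namespace Pool.Agent.Q136.GA

open Finset

/-- Minimal asymptotic basis of order `h`. -/
def IsMinimalBasis (h : ℕ) (A : Set ℕ) : Prop :=
  IsAsymptoticBasis h A ∧ ∀ B, B ⊂ A → ¬ IsAsymptoticBasis h B

variable {g : ℕ → ℕ}

theorem basis_mono {h : ℕ} {A B : Set ℕ} (hAB : A ⊆ B) (hA : IsAsymptoticBasis h A) :
    IsAsymptoticBasis h B := by
  obtain ⟨N, hN⟩ := hA
  refine ⟨N, fun n hn => ?_⟩
  obtain ⟨a, ha, e⟩ := hN n hn
  exact ⟨a, fun i => hAB (ha i), e⟩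

theorem minimal_iff {h : ℕ} {A : Set ℕ} :
    IsMinimalBasis h A ↔ IsAsymptoticBasis h A ∧ ∀ b ∈ A, ¬ IsAsymptoticBasis h (A \ {b}) := by
  constructor
  · rintro ⟨h1, h2⟩
    refine ⟨h1, fun b hb => h2 _ ?_⟩
    refine ⟨Set.sdiff_subset, fun hsub => ?_⟩
    exact (hsub hb).2 rfl
  · rintro ⟨h1, h2⟩
    refine ⟨h1, fun B hB hb => ?_⟩
    obtain ⟨b, hbA, hbB⟩ := Set.exists_of_ssubset hB
    exact h2 b hbA (basis_mono (fun x hx => ⟨hB.1 hx, fun e => hbB (e ▸ hx)⟩) hb)

section
variable {h : ℕ} {W : Fin h → Set ℕ}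

/-- Exchange: a copy of `g M` and a large element are replaced by two other elements. -/
theorem exchange (hg : IsGadic g) {U : Set ℕ} {K : ℕ} (hU : ∀ j, K ≤ j → j ∈ U)
    {a x : ℕ} (haK : a < g K) (hx : x ∈ Z g U) (hxl : g (K + 2) ≤ x) :
    ∃ y z, y ∈ Z g U ∧ z ∈ Z g U ∧ y ≠ a ∧ z ≠ a ∧ y ≠ g K ∧ z ≠ g K ∧ y + z = g K + x := by
  have hx0 : x ≠ 0 := by have := hg.pos (K + 2); omega
  obtain ⟨p, u, r, hp, hu1, hu2, hr, hrU, e⟩ := exists_top hg hx0 hx
  have hxp : x < g (p + 1) := by
    rw [g_succ hg, e]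
    have : (u + 1) * g p ≤ q g p * g p := Nat.mul_le_mul_right _ (by omega)
    nlinarith
  have hKp : K + 2 ≤ p := by
    by_contra hlt
    have := hg.mono.monotone (show p + 1 ≤ K + 2 by omega)
    omega
  have hgK : g K < g p := hg.mono (by omega)
  have hgp : 1 * g p ≤ u * g p := Nat.mul_le_mul_right _ hu1
  have hqK := q_two hg K
  by_cases hra : r = a ∨ r = g K
  · have hrK : r ≤ g K := by rcases hra with h | h <;> omega
    by_cases hu : u = 1
    · obtain ⟨p', rfl⟩ : ∃ p', p = p' + 1 := ⟨p - 1, by omega⟩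
      have hq := q_two hg p'
      have hKp' : g K < g p' := hg.mono (by omega)
      have hp' : p' ∈ U := hU p' (by omega)
      have h1 : 1 * g p' ≤ (q g p' - 1) * g p' := Nat.mul_le_mul_right _ (by omega)
      refine ⟨g p' + g K, (q g p' - 1) * g p' + r, ?_, ?_, by omega, by omega, ?_, by omega, ?_⟩
      · have := add_top_mem hg hp' hKp' (one_mul_mem hg (hU K le_rfl)) (show 1 < q g p' by omega)
        rwa [one_mul] at this
      · exact add_top_mem hg hp' (by omega) hrU (by omega)
      · have := hg.pos p'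
        omega
      · rw [e, hu, one_mul, g_pred hg]
        ring
    · refine ⟨g p + g K, (u - 1) * g p + r, ?_, ?_, by omega, ?_, ?_, ?_, ?_⟩
      · have := add_top_mem hg hp hgK (one_mul_mem hg (hU K le_rfl))
          (show 1 < q g p by omega)
        rwa [one_mul] at this
      · exact add_top_mem hg hp hr hrU (by omega)
      · have : 1 * g p ≤ (u - 1) * g p := Nat.mul_le_mul_right _ (by omega)
        omega
      · have := hg.pos p
        omega
      · have : 1 * g p ≤ (u - 1) * g p := Nat.mul_le_mul_right _ (by omega)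
        omega
      · obtain ⟨v, rfl⟩ : ∃ v, u = v + 1 := ⟨u - 1, by omega⟩
        rw [e]
        simp only [Nat.add_sub_cancel]
        ring
  · push Not at hra
    refine ⟨u * g p + g K, r, add_top_mem hg hp hgK (one_mul_mem hg (hU K le_rfl)) hu2, hrU,
      by omega, hra.1, ?_, hra.2, ?_⟩
    · have := hg.pos p
      omega
    · rw [e]
      ring

/-- If one part is cofinite, no set `A \ {a}` is minimal. -/
theorem cofinite_not_minimal (hg : IsGadic g) (hW : IsPartition W) (i : Fin h)
    (hfin : (W i)ᶜ.Finite) (a : ℕ) : ¬ IsMinimalBasis h (base g W \ {a}) := by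
  classical
  rw [minimal_iff]
  rintro ⟨⟨N, hN⟩, hmin⟩
  obtain ⟨J, hJ⟩ := hfin.bddAbove
  set K := J + 1 + a with hK
  have hU : ∀ j, K ≤ j → j ∈ W i := by
    intro j hj
    by_contra hn
    have := hJ hn
    omega
  have haK : a < g K := lt_of_le_of_lt (by omega) (hg.le K)
  have hgKbase : g K ∈ base g W \ {a} :=
    ⟨(mem_base_iff hg).mpr (Or.inr ⟨i, one_mul_mem hg (hU K le_rfl)⟩), fun e => by
      rw [Set.mem_singleton_iff] at e; omega⟩
  apply hmin (g K) hgKbase
  have hother : ∀ c, c ≠ i → ∀ x ∈ Z g (W c), x < g K := by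
    intro c hc x hx
    refine Z_lt hg (W := W c) ?_ hx
    intro j hj
    by_contra hn
    exact Set.disjoint_left.mp (hW.disjoint c i hc) hj (hU j (by omega))
  refine ⟨N + h * g (K + 2) + g K, fun n hn => ?_⟩
  rw [mem_sumset_iff]
  obtain ⟨s, hs1, hs2, hs3⟩ := mem_sumset_iff.mp (hN n (by omega))
  -- induction on the number of copies of g K
  have key : ∀ (t : ℕ) (s : Multiset ℕ), s.card = h → (∀ x ∈ s, x ∈ base g W \ {a}) →
      s.sum = n → s.count (g K) = t →
      ∃ s' : Multiset ℕ, s'.card = h ∧ (∀ x ∈ s', x ∈ (base g W \ {a}) \ {g K}) ∧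
        s'.sum = n := by
    intro t
    induction t with
    | zero =>
      intro s h1 h2 h3 h4
      refine ⟨s, h1, fun x hx => ⟨h2 x hx, ?_⟩, h3⟩
      intro e
      rw [Set.mem_singleton_iff] at e
      subst e
      exact (Multiset.count_eq_zero.mp h4) hx
    | succ t ih =>
      intro s h1 h2 h3 h4
      have hmem : g K ∈ s := by
        rw [← Multiset.count_pos]
        omega
      obtain ⟨s1, rfl⟩ := Multiset.exists_cons_of_mem hmem
      rw [Multiset.count_cons_self] at h4
      rw [Multiset.sum_cons] at h3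
      rw [Multiset.card_cons] at h1
      obtain ⟨x, hx, hxl⟩ : ∃ x ∈ s1, g (K + 2) ≤ x := by
        by_contra hcon
        push Not at hcon
        have h5 := Multiset.sum_le_card_nsmul s1 (g (K + 2)) fun x hx => (hcon x hx).le
        rw [smul_eq_mul] at h5
        have h6 : s1.card * g (K + 2) ≤ h * g (K + 2) := Nat.mul_le_mul_right _ (by omega)
        have h7 : (s1.card + 1) * g (K + 2) = h * g (K + 2) := by rw [h1]
        have h8 : (s1.card + 1) * g (K + 2) = s1.card * g (K + 2) + g (K + 2) := by ring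
        have := hg.pos (K + 2)
        omega
      obtain ⟨s2, rfl⟩ := Multiset.exists_cons_of_mem hx
      have hxZ : x ∈ Z g (W i) := by
        rcases (mem_base_iff hg).mp (h2 x (Multiset.mem_cons_of_mem hx)).1 with h0 | ⟨c, hc⟩
        · rw [h0]; exact zero_mem_Z _
        · by_cases hci : c = i
          · rwa [hci] at hc
          · have := hother c hci x hc
            have := hg.mono.monotone (show K ≤ K + 2 by omega)
            omega
      obtain ⟨y, z, hy, hz, hya, hza, hyK, hzK, e⟩ := exchange hg hU haK hxZ hxl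
      apply ih (y ::ₘ z ::ₘ s2)
      · rw [Multiset.card_cons, Multiset.card_cons]
        rw [Multiset.card_cons] at h1
        exact h1
      · intro w hw
        rcases Multiset.mem_cons.mp hw with rfl | hw
        · exact ⟨(mem_base_iff hg).mpr (Or.inr ⟨i, hy⟩), hya⟩
        · rcases Multiset.mem_cons.mp hw with rfl | hw
          · exact ⟨(mem_base_iff hg).mpr (Or.inr ⟨i, hz⟩), hza⟩
          · exact h2 w (Multiset.mem_cons_of_mem (Multiset.mem_cons_of_mem hw))
      · rw [Multiset.sum_cons] at h3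
        rw [Multiset.sum_cons, Multiset.sum_cons]
        omega
      · have hxK : x ≠ g K := by
          have := hg.mono (show K < K + 2 by omega)
          omega
        rw [Multiset.count_cons_of_ne hxK.symm] at h4
        rw [Multiset.count_cons_of_ne hyK.symm, Multiset.count_cons_of_ne hzK.symm]
        omega
  exact key _ s hs1 hs2 hs3 rfl

end

end Pool.Agent.Q136.GA
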