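import Pool.Agent.Q136.GA.Min

/-!
Minimality for order two.
-/

namespace Pool.Agent.Q136.GA

open Finset

variable {g : ℕ → ℕ} {U V : Set ℕ}

/-- The basis of order two in terms of the two parts. -/
def BB (g : ℕ → ℕ) (U V : Set ℕ) : Set ℕ := {n | n ∈ Z g U ∨ n ∈ Z g V}

theorem sumset_two {A : Set ℕ} {n : ℕ} : n ∈ sumset 2 A ↔ ∃ x ∈ A, ∃ y ∈ A, n = x + y := by
  constructor
  · rintro ⟨a, ha, e⟩
    exact ⟨a 0, ha 0, a 1, ha 1, by rw [e, Fin.sum_univ_two]⟩
  · rintro ⟨x, hx, y, hy, e⟩
    refine ⟨![x, y], ?_, by rw [Fin.sum_univ_two]; simpa using e⟩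
    intro i
    fin_cases i
    · simpa using hx
    · simpa using hy

/-- The two parts. -/
structure Two (U V : Set ℕ) : Prop where
  iff : ∀ j, j ∈ V ↔ j ∉ U
  infU : U.Infinite
  infV : V.Infinite

theorem Two.part (h : Two U V) : IsPartition (![U, V] : Fin 2 → Set ℕ) := by
  refine ⟨?_, ?_, ?_⟩
  · intro i
    fin_cases i
    · exact h.infU.nonempty
    · exact h.infV.nonempty
  · intro i j hij
    fin_cases i <;> fin_cases j
    · exact absurd rfl hij
    · exact Set.disjoint_left.mpr fun k hk hk' => (h.iff k).mp hk' hk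
    · exact Set.disjoint_left.mpr fun k hk hk' => (h.iff k).mp hk hk'
    · exact absurd rfl hij
  · ext j
    simp only [Set.mem_iUnion, Set.mem_univ, iff_true]
    by_cases hj : j ∈ U
    · exact ⟨0, hj⟩
    · exact ⟨1, (h.iff j).mpr hj⟩

theorem Two.parts (h : Two U V) (hg : IsGadic g) (n : ℕ) :
    ∃ y ∈ Z g U, ∃ z ∈ Z g V, n = y + z := by
  obtain ⟨x, hx, e⟩ := exists_parts hg h.part n
  exact ⟨x 0, hx 0, x 1, hx 1, by rw [e, Fin.sum_univ_two]⟩

theorem Two.unique (h : Two U V) (hg : IsGadic g) {y y' z z' : ℕ} (hy : y ∈ Z g U)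
    (hy' : y' ∈ Z g U) (hz : z ∈ Z g V) (hz' : z' ∈ Z g V) (e : y + z = y' + z') : y = y' := by
  have := parts_unique hg (W := ![U, V]) h.part.disjoint (x := ![y, z]) (y := ![y', z'])
    (by intro i; fin_cases i; exacts [hy, hz]) (by intro i; fin_cases i; exacts [hy', hz'])
    (by rw [Fin.sum_univ_two, Fin.sum_univ_two]; simpa using e) 0
  simpa using this

theorem Two.mod (h : Two U V) (hg : IsGadic g) {y z : ℕ} (hy : y ∈ Z g U)
    (hz : z ∈ Z g V) (J : ℕ) : (y + z) % g J = y % g J + z % g J := by
  have := mod_sum_parts hg (W := ![U, V]) h.part.disjoint ![y, z]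
    (by intro i; fin_cases i; exacts [hy, hz]) J
  rw [Fin.sum_univ_two, Fin.sum_univ_two] at this
  simpa using this

theorem Two.msum (h : Two U V) (hg : IsGadic g) (J : ℕ) : m g U J + m g V J + 1 = g J := by
  have := m_sum hg h.part J
  rw [Fin.sum_univ_two] at this
  simpa using this

theorem Two.zero (h : Two U V) (hg : IsGadic g) {n : ℕ} (hU : n ∈ Z g U) (hV : n ∈ Z g V) :
    n = 0 :=
  Z_disjoint hg (Set.disjoint_left.mpr fun k hk hk' => (h.iff k).mp hk' hk) hU hV

theorem criterion_two (hg : IsGadic g) {n : ℕ} (h : ∀ J, n % g J ≤ 2 * m g U J) :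
    ∃ x ∈ Z g U, ∃ x' ∈ Z g U, n = x + x' := by
  obtain ⟨x, hx, e⟩ := criterion hg (fun _ : Fin 2 => U) n (by
    intro J
    rw [Fin.sum_univ_two]
    have := h J
    omega)
  exact ⟨x 0, hx 0, x 1, hx 1, by rw [e, Fin.sum_univ_two]⟩

/-- Both summands are large. -/
theorem Two.big (h : Two U V) (hg : IsGadic g) (B a : ℕ) :
    ∃ N, ∀ n, N ≤ n → ∀ y ∈ Z g U, y ≤ a → ∀ z ∈ Z g V, n = y + z →
      ∀ x ∈ Z g U, ∀ x' ∈ Z g U, n = x + x' → B ≤ x := by
  obtain ⟨q0, hq0, hBq⟩ := h.infV.exists_gt (B + a)
  refine ⟨a + g (q0 + 1), fun n hn y hy hya z hz e x hx x' hx' e' => ?_⟩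
  have hz0 : z ≠ 0 := by have := hg.pos (q0 + 1); omega
  obtain ⟨p, u, r, hp, hu1, hu2, hr, hrV, ez⟩ := exists_top hg hz0 hz
  have hzp : z < g (p + 1) := by
    rw [g_succ hg, ez]
    have : (u + 1) * g p ≤ q g p * g p := Nat.mul_le_mul_right _ (by omega)
    nlinarith
  have hqp : q0 < p := by
    by_contra hlt
    have := hg.mono.monotone (show p + 1 ≤ q0 + 1 by omega)
    omega
  have hpU : p ∉ U := (h.iff p).mp hp
  have hq0U : q0 ∉ U := (h.iff q0).mp hq0
  have hgq : q0 < g q0 := hg.le q0
  have hgqp : g q0 < g p := hg.mono hqp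
  have h1 := h.msum hg (p + 1)
  have h2 := mod_le_m hg hz (p + 1)
  rw [Nat.mod_eq_of_lt hzp] at h2
  have h3 := mod_le_m hg hy (p + 1)
  rw [Nat.mod_eq_of_lt (lt_trans (show y < g p by omega) (hg.lt p))] at h3
  have hn1 : n < g (p + 1) := by omega
  have h4 := mod_le_m hg hx' (p + 1)
  rw [Nat.mod_eq_of_lt (by omega), m_succ_of_not hpU] at h4
  have h5 := h.msum hg p
  have h6 : 1 * g p ≤ u * g p := Nat.mul_le_mul_right _ hu1
  have h7 : g q0 ≤ m g V p := by
    have h8 := m_mod hg V (show q0 + 1 ≤ p by omega)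
    rw [m_succ_of_mem hq0] at h8
    have h9 : 1 * g q0 ≤ (q g q0 - 1) * g q0 :=
      Nat.mul_le_mul_right _ (by have := q_two hg q0; omega)
    have h10 := Nat.mod_le (m g V p) (g (q0 + 1))
    omega
  omega

/-- `1` is never removable from the basis without `0`. -/
theorem Two.one_not (h : Two U V) (hg : IsGadic g) (h0 : 0 ∈ U) :
    ¬ IsAsymptoticBasis 2 ((BB g U V \ {0}) \ {1}) := by
  rintro ⟨N, hN⟩
  -- infinitely many p with p in V and p + 1 in U
  obtain ⟨p, hpN, hpV, hpU⟩ : ∃ p, N ≤ p ∧ p ∈ V ∧ p + 1 ∈ U := by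
    by_contra hcon
    push Not at hcon
    obtain ⟨p, hp, hNp⟩ := h.infV.exists_gt N
    have hall : ∀ j, p ≤ j → j ∈ V := by
      intro j hj
      induction j, hj using Nat.le_induction with
      | base => exact hp
      | succ j hj ih => exact (h.iff _).mpr (hcon j (by omega) ih)
    obtain ⟨j, hj, hpj⟩ := h.infU.exists_gt p
    exact (h.iff j).mp (hall j hpj.le) hj
  have hg1 : g 0 < g 1 := hg.lt 0
  rw [hg.zero] at hg1
  have hgp := hg.pos p
  have hgle := hg.le (p + 1)
  obtain ⟨x, hx, y, hy, e⟩ := sumset_two.mp (hN (1 + g (p + 1)) (by omega))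
  have hpnU : p ∉ U := (h.iff p).mp hpV
  have hnV : (0 : ℕ) ∉ V := fun h' => (h.iff 0).mp h' h0
  have h1Z : 1 ∈ Z g U := by
    have := one_mul_mem hg h0
    rwa [hg.zero] at this
  have hnU : 1 + g (p + 1) ∈ Z g U := by
    have := add_top_mem hg hpU (show 1 < g (p + 1) by omega) h1Z
      (show 1 < q g (p + 1) by have := q_two hg (p + 1); omega)
    rw [one_mul, add_comm] at this
    exact this
  have hx0 : x ≠ 0 := hx.1.2
  have hx1 : x ≠ 1 := hx.2
  have hy0 : y ≠ 0 := hy.1.2
  have hy1 : y ≠ 1 := hy.2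
  rcases hx.1.1 with hxU | hxV
  · rcases hy.1.1 with hyU | hyV
    · -- both in U
      have hxm := mod_le_m hg hxU (p + 1)
      have hym := mod_le_m hg hyU (p + 1)
      rw [m_succ_of_not hpnU] at hxm hym
      have hml := m_lt hg U p
      have h2 : 2 * g p ≤ g (p + 1) := by
        rw [g_succ hg, mul_comm]
        exact Nat.mul_le_mul_left _ (q_two hg p)
      have h3 : (x % g (p + 1) + y % g (p + 1)) % g (p + 1) = 1 := by
        rw [← Nat.add_mod, ← e, Nat.add_mod_right]
        exact Nat.mod_eq_of_lt (by omega)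
      rw [Nat.mod_eq_of_lt (by omega)] at h3
      have hxd := Nat.div_add_mod x (g (p + 1))
      have hyd := Nat.div_add_mod y (g (p + 1))
      have h4 : g (p + 1) * (x / g (p + 1) + y / g (p + 1)) = g (p + 1) * 1 := by
        rw [mul_add]
        omega
      have h5 := Nat.eq_of_mul_eq_mul_left (hg.pos _) h4
      rcases Nat.eq_zero_or_pos (x / g (p + 1)) with h6 | h6
      · rw [h6, mul_zero, zero_add] at hxd
        omega
      · have h7 : y / g (p + 1) = 0 := by
          by_contra hne
          have h8 : 1 + 1 ≤ x / g (p + 1) + y / g (p + 1) :=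
            Nat.add_le_add h6 (Nat.pos_of_ne_zero hne)
          rw [h5] at h8
          exact absurd h8 (by norm_num)
        rw [h7, mul_zero, zero_add] at hyd
        omega
    · have := h.unique hg hnU hxU (zero_mem_Z V) hyV (by omega)
      omega
  · rcases hy.1.1 with hyU | hyV
    · have := h.unique hg hnU hyU (zero_mem_Z V) hxV (by omega)
      omega
    · -- both in V
      have hxd := hxV 0 hnV
      have hyd := hyV 0 hnV
      unfold dig at hxd hyd
      have hq0 : q g 0 = g 1 := by simp [q, hg.zero]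
      rw [hg.zero, Nat.div_one, hq0] at hxd hyd
      have h2 : (x + y) % g 1 = 0 := by rw [Nat.add_mod, hxd, hyd]; simp
      rw [← e] at h2
      obtain ⟨c, hc⟩ := g_dvd hg (show 1 ≤ p + 1 by omega)
      rw [hc, Nat.add_mul_mod_self_left, Nat.mod_eq_of_lt hg1] at h2
      omega

theorem Two.star_zero (_ : Two U V) {a : ℕ}
    (hs : ∀ J, a % g J + m g V J ≤ 2 * m g U J) (J : ℕ) : m g V J ≤ 2 * m g U J := by
  have := hs J
  omega

theorem Two.q_two_of_free (_ : Two U V) (hg : IsGadic g) {a : ℕ} (hf : Free g U V a) {j : ℕ}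
    (hj : j ∈ V) : q g j = 2 := by
  unfold q
  rw [(hf j hj).1, Nat.mul_div_cancel _ (hg.pos j)]

/-- `a` removable and `a` not `0`, `1`: both `0` and `a` can be removed. -/
theorem Two.remove_zero (h : Two U V) (hg : IsGadic g) {a : ℕ} (ha : a ∈ Z g U)
    (ha0 : a ≠ 0) (ha1 : a ≠ 1) (hf : Free g U V a) :
    IsAsymptoticBasis 2 ((BB g U V \ {0}) \ {a}) := by
  have hstar := (free_iff hg h.iff ha).mpr hf
  obtain ⟨N1, hN1⟩ := h.big hg (a + 1) a
  have memU : ∀ x ∈ Z g U, x ≠ 0 → x ≠ a → x ∈ (BB g U V \ {0}) \ {a} :=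
    fun x hx h1 h2 => ⟨⟨Or.inl hx, h1⟩, h2⟩
  have memV : ∀ x ∈ Z g V, x ≠ 0 → x ∈ (BB g U V \ {0}) \ {a} := by
    intro x hx h1
    refine ⟨⟨Or.inr hx, h1⟩, ?_⟩
    rintro rfl
    exact h1 (h.zero hg ha hx)
  refine ⟨N1 + g (a + 4) + a, fun n hn => ?_⟩
  rw [sumset_two]
  obtain ⟨y, hy, z, hz, e⟩ := h.parts hg n
  -- reduction via the criterion
  have crit : y ≤ a → (∀ J, y % g J + m g V J ≤ 2 * m g U J) →
      ∃ x ∈ (BB g U V \ {0}) \ {a}, ∃ x' ∈ (BB g U V \ {0}) \ {a}, n = x + x' := by
    intro hya hst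
    obtain ⟨x, hx, x', hx', e'⟩ := criterion_two hg (n := n) (U := U) (by
      intro J
      rw [e, h.mod hg hy hz]
      have h1 := mod_le_m hg hz J
      have h2 := hst J
      omega)
    have h1 := hN1 n (by omega) y hy hya z hz e x hx x' hx' e'
    have h2 := hN1 n (by omega) y hy hya z hz e x' hx' x hx (by omega)
    exact ⟨x, memU x hx (by omega) (by omega), x', memU x' hx' (by omega) (by omega), e'⟩
  by_cases hya : y = a
  · exact crit hya.le (by rw [hya]; exact hstar)
  by_cases hy0 : y = 0
  · exact crit (by omega) (by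
      intro J
      rw [hy0, Nat.zero_mod, zero_add]
      exact h.star_zero hstar J)
  by_cases hz0 : z ≠ 0
  · exact ⟨y, memU y hy hy0 hya, z, memV z hz hz0, e⟩
  push Not at hz0
  have en : n = y := by omega
  obtain ⟨p, u, r, hp, hu1, hu2, hr, hrU, ey⟩ := exists_top hg hy0 hy
  have hyp : y < g (p + 1) := by
    rw [g_succ hg, ey]
    have : (u + 1) * g p ≤ q g p * g p := Nat.mul_le_mul_right _ (by omega)
    nlinarith
  have hpa : a + 4 ≤ p := by
    by_contra hlt
    have := hg.mono.monotone (show p + 1 ≤ a + 4 by omega)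
    omega
  obtain ⟨p', rfl⟩ : ∃ p', p = p' + 1 := ⟨p - 1, by omega⟩
  have hgp := hg.pos (p' + 1)
  have hgp' := hg.le p'
  have hgp'' := hg.lt p'
  have hq := q_two hg p'
  by_cases hu : u = 1
  · rw [hu, one_mul] at ey
    by_cases hr0 : r = 0
    · have hk : ∃ x ∈ (BB g U V \ {0}) \ {a}, ∃ x' ∈ (BB g U V \ {0}) \ {a},
          g (p' + 1) = x + x' := by
        have h1 : 1 * g p' ≤ (q g p' - 1) * g p' := Nat.mul_le_mul_right _ (by omega)
        by_cases hpU : p' ∈ U
        · exact ⟨(q g p' - 1) * g p', memU _ (mul_mem hg hpU (by omega)) (by omega) (by omega),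
            g p', memU _ (one_mul_mem hg hpU) (by omega) (by omega), g_pred hg p'⟩
        · have hpV := (h.iff p').mpr hpU
          exact ⟨(q g p' - 1) * g p', memV _ (mul_mem hg hpV (by omega)) (by omega),
            g p', memV _ (one_mul_mem hg hpV) (by omega), g_pred hg p'⟩
      obtain ⟨x, hx, x', hx', e'⟩ := hk
      exact ⟨x, hx, x', hx', by omega⟩
    · by_cases hra : r = a
      · by_cases hpU : p' ∈ U
        · have h1 : 1 * g p' ≤ (q g p' - 1) * g p' := Nat.mul_le_mul_right _ (by omega)
          refine ⟨(q g p' - 1) * g p' + a, memU _ (add_top_mem hg hpU (by omega) ha (by omega))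
            (by omega) (by omega), g p', memU _ (one_mul_mem hg hpU) (by omega) (by omega), ?_⟩
          rw [en, ey, hra, g_pred hg]
          ring
        · have hpV := (h.iff p').mpr hpU
          have hq2 := h.q_two_of_free hg hf hpV
          obtain ⟨i, v, s, hi, hv1, hv2, hs, hsU, ea⟩ := exists_top hg ha0 ha
          have hgi := hg.pos i
          have hvi : 1 * g i ≤ v * g i := Nat.mul_le_mul_right _ hv1
          have hia : i < a + 1 := by
            have := hg.le i
            omega
          have hip : g i < g (p' + 1) := hg.mono (by omega)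
          by_cases hs0 : s = 0
          · by_cases hv : v = 1
            · rw [hv, one_mul, hs0, add_zero] at ea
              have hi0 : i ≠ 0 := by
                rintro rfl
                rw [hg.zero] at ea
                exact ha1 ea
              obtain ⟨i', rfl⟩ := Nat.exists_eq_succ_of_ne_zero hi0
              have hgi' := hg.pos i'
              have hgii := hg.lt i'
              have hqi := q_two hg i'
              have hpred := g_pred hg i'
              by_cases hiU : i' ∈ U
              · have hlt : (q g i' - 1) * g i' < g (p' + 1) := by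
                  have := hg.mono (show i' + 1 < p' + 1 by omega)
                  omega
                refine ⟨g (p' + 1) + (q g i' - 1) * g i', memU _ ?_ (by omega) (by omega),
                  g i', memU _ (one_mul_mem hg hiU) (by omega) ?_, ?_⟩
                · have := add_top_mem hg hp hlt (mul_mem hg hiU (by omega))
                    (show 1 < q g (p' + 1) by have := q_two hg (p' + 1); omega)
                  rwa [one_mul] at this
                · show g i' ≠ a
                  rw [ea]
                  exact (hg.lt i').ne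
                · rw [en, ey, hra, ea, Nat.succ_eq_add_one, hpred]
                  ring
              · have hiV := (h.iff i').mpr hiU
                have hqi2 := h.q_two_of_free hg hf hiV
                have hii : g i' < g p' := hg.mono (by omega)
                have hmemV : g p' + g i' ∈ Z g V := by
                  have := add_top_mem hg hpV hii (one_mul_mem hg hiV) (show 1 < q g p' by omega)
                  rwa [one_mul] at this
                refine ⟨g p' + g i', memV _ hmemV (by omega), g p' + g i',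
                  memV _ hmemV (by omega), ?_⟩
                rw [en, ey, hra, ea, Nat.succ_eq_add_one, g_succ hg p', g_succ hg i', hq2, hqi2]
                ring
            · refine ⟨g (p' + 1) + (v - 1) * g i, memU _ ?_ (by omega) (by omega),
                g i, memU _ (one_mul_mem hg hi) (by omega) ?_, ?_⟩
              · have hlt : (v - 1) * g i < g (p' + 1) := by
                  have h3 : (v - 1) * g i ≤ v * g i := Nat.mul_le_mul_right _ (by omega)
                  have h4 := hg.le (p' + 1)
                  omega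
                have := add_top_mem hg hp hlt (mul_mem hg hi (show v - 1 < q g i by omega))
                  (show 1 < q g (p' + 1) by have := q_two hg (p' + 1); omega)
                rwa [one_mul] at this
              · show g i ≠ a
                have : 2 * g i ≤ v * g i := Nat.mul_le_mul_right _ (by omega)
                omega
              · obtain ⟨w, rfl⟩ : ∃ w, v = w + 1 := ⟨v - 1, by omega⟩
                rw [en, ey, hra, ea, hs0]
                simp only [Nat.add_sub_cancel]
                ring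
          · have hlt : v * g i < g (p' + 1) := by
              have h4 := hg.le (p' + 1)
              omega
            refine ⟨g (p' + 1) + v * g i, memU _ ?_ (by omega) (by omega),
              s, memU _ hsU hs0 ?_, ?_⟩
            · have := add_top_mem hg hp hlt (mul_mem hg hi hv2)
                (show 1 < q g (p' + 1) by have := q_two hg (p' + 1); omega)
              rwa [one_mul] at this
            · show s ≠ a
              omega
            · rw [en, ey, hra, ea]
              ring
      · refine ⟨g (p' + 1), memU _ (one_mul_mem hg hp) (by omega) (by omega), r,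
          memU r hrU hr0 hra, ?_⟩
        rw [en, ey]
  · refine ⟨(u - 1) * g (p' + 1) + r, memU _ (add_top_mem hg hp hr hrU (by omega)) ?_ ?_,
      g (p' + 1), memU _ (one_mul_mem hg hp) (by omega) (by omega), ?_⟩
    · have : 1 * g (p' + 1) ≤ (u - 1) * g (p' + 1) := Nat.mul_le_mul_right _ (by omega)
      omega
    · have : 1 * g (p' + 1) ≤ (u - 1) * g (p' + 1) := Nat.mul_le_mul_right _ (by omega)
      omega
    · obtain ⟨w, rfl⟩ : ∃ w, u = w + 1 := ⟨u - 1, by omega⟩
      rw [en, ey]
      simp only [Nat.add_sub_cancel]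
      ring

/-- Two removable elements can be removed together. -/
theorem Two.remove_both (h : Two U V) (hg : IsGadic g) {a b : ℕ} (ha : a ∈ Z g U)
    (hb : b ∈ Z g U) (ha0 : a ≠ 0) (hb0 : b ≠ 0) (hfa : Free g U V a) (hfb : Free g U V b) :
    IsAsymptoticBasis 2 ((BB g U V \ {a}) \ {b}) := by
  have hsa := (free_iff hg h.iff ha).mpr hfa
  have hsb := (free_iff hg h.iff hb).mpr hfb
  obtain ⟨N1, hN1⟩ := h.big hg (a + b + 1) (a + b)
  refine ⟨N1 + a + b, fun n hn => ?_⟩
  rw [sumset_two]
  obtain ⟨y, hy, z, hz, e⟩ := h.parts hg n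
  have crit : y ≤ a + b → (∀ J, y % g J + m g V J ≤ 2 * m g U J) →
      ∃ x ∈ (BB g U V \ {a}) \ {b}, ∃ x' ∈ (BB g U V \ {a}) \ {b}, n = x + x' := by
    intro hya hst
    obtain ⟨x, hx, x', hx', e'⟩ := criterion_two hg (n := n) (U := U) (by
      intro J
      rw [e, h.mod hg hy hz]
      have h1 := mod_le_m hg hz J
      have h2 := hst J
      omega)
    have h1 := hN1 n (by omega) y hy hya z hz e x hx x' hx' e'
    have h2 := hN1 n (by omega) y hy hya z hz e x' hx' x hx (by omega)
    exact ⟨x, ⟨⟨Or.inl hx, fun h' => by rw [Set.mem_singleton_iff] at h'; omega⟩,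
      fun h' => by rw [Set.mem_singleton_iff] at h'; omega⟩, x',
      ⟨⟨Or.inl hx', fun h' => by rw [Set.mem_singleton_iff] at h'; omega⟩,
      fun h' => by rw [Set.mem_singleton_iff] at h'; omega⟩, e'⟩
  by_cases hya : y = a
  · exact crit (by omega) (by rw [hya]; exact hsa)
  by_cases hyb : y = b
  · exact crit (by omega) (by rw [hyb]; exact hsb)
  refine ⟨y, ⟨⟨Or.inl hy, hya⟩, hyb⟩, z, ⟨⟨Or.inr hz, ?_⟩, ?_⟩, e⟩
  · rintro rfl
    exact ha0 (h.zero hg ha hz)
  · rintro rfl
    exact hb0 (h.zero hg hb hz)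

end Pool.Agent.Q136.GA
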