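import Pool.Agent.Q136.GA.Special

/-!
The removable elements of order two.
-/

namespace Pool.Agent.Q136.GA

open Finset

variable {g : ℕ → ℕ}

theorem order_two {W : Fin 2 → Set ℕ} (hg : IsGadic g) (hW : IsPartition W) :
    ∀ a ∈ base g W, (IsAsymptoticBasis 2 (base g W \ {a}) ↔
      a = 0 ∨ ∃ i, a ∈ AG g (W i) ∧ ((W (1 - i)).Finite ∨ Free g (W i) (W (1 - i)) a)) := by
  intro a ha
  have hne : ∀ i : Fin 2, 1 - i ≠ i := by decide
  have hother : ∀ i c : Fin 2, c ≠ i → c = 1 - i := by decide
  have hcompl : ∀ i : Fin 2, (W i)ᶜ = W (1 - i) := by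
    intro i
    ext j
    constructor
    · intro hj
      have hj' : j ∈ ⋃ i, W i := by rw [hW.union]; trivial
      obtain ⟨c, hc⟩ := Set.mem_iUnion.mp hj'
      have : c ≠ i := by rintro rfl; exact hj hc
      rwa [hother i c this] at hc
    · intro hj hj'
      exact Set.disjoint_left.mp (hW.disjoint _ _ (hne i)) hj hj'
  have hUV : ∀ i : Fin 2, ∀ j, j ∈ W (1 - i) ↔ j ∉ W i := fun i j => by
    rw [← hcompl i]; rfl
  constructor
  · intro hb
    by_cases h0 : a = 0
    · exact Or.inl h0
    · rcases (mem_base_iff hg).mp ha with h | ⟨i, hi⟩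
      · exact absurd h h0
      · refine Or.inr ⟨i, (mem_AG_iff hg).mpr ⟨h0, hi⟩, ?_⟩
        by_cases hfin : (W (1 - i)).Finite
        · exact Or.inl hfin
        · right
          have hinf : (W i)ᶜ.Infinite := by rw [hcompl i]; exact hfin
          obtain ⟨φ, hφ, hstar⟩ := removable_necessary hg hW i hi hinf hb
          have hconst : φ 0 = φ 1 := by
            by_contra hcon
            apply hφ
            intro x y hxy
            fin_cases x <;> fin_cases y
            · rfl
            · exact absurd hxy hcon
            · exact absurd hxy.symm hcon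
            · rfl
          have hφ0 : φ 0 = i := by
            by_contra hcon
            refine own_part_obstruction hg hW i h0 hi φ hφ ?_ hstar
            intro c hc
            exact ⟨0, by rw [hother i c hc]; exact hother i _ hcon⟩
          have he : (univ.erase i : Finset (Fin 2)) = {1 - i} := by
            fin_cases i <;> decide
          apply (free_iff hg (hUV i) hi).mp
          intro J
          have := hstar J
          rw [he, Finset.sum_singleton, Fin.sum_univ_two, ← hconst, hφ0] at this
          omega
  · rintro (rfl | ⟨i, hA, hfin | hD⟩)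
    · exact zero_removable hg hW
    · obtain ⟨ha0, haZ⟩ := (mem_AG_iff hg).mp hA
      exact removable_cofinite hg hW i ha0 haZ (by rw [hcompl i]; exact hfin)
    · obtain ⟨ha0, haZ⟩ := (mem_AG_iff hg).mp hA
      have hstar := (free_iff hg (hUV i) haZ).mpr hD
      refine ⟨a + 1, fun n hn => ?_⟩
      obtain ⟨y, hy, hys⟩ := exists_parts hg hW n
      have hys' : n = y i + y (1 - i) := by
        rw [hys]
        have he : (univ.erase i : Finset (Fin 2)) = {1 - i} := by
          fin_cases i <;> decide
        rw [← Finset.add_sum_erase _ _ (mem_univ i), he, Finset.sum_singleton]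
      have hya' : y (1 - i) ≠ a := fun e =>
        ha0 (Z_disjoint hg (hW.disjoint _ _ (hne i)) (e ▸ hy (1 - i)) haZ)
      by_cases hya : y i = a
      · have hyn : y (1 - i) ≠ 0 := by omega
        obtain ⟨x, hx, hxs⟩ := criterion hg (fun _ : Fin 2 => W i) n (by
          intro J
          have h1 : n % g J = y i % g J + y (1 - i) % g J := by
            rw [hys, mod_sum_parts hg hW.disjoint _ hy]
            have he : (univ.erase i : Finset (Fin 2)) = {1 - i} := by
              fin_cases i <;> decide
            rw [← Finset.add_sum_erase _ _ (mem_univ i), he, Finset.sum_singleton]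
          have h2 := mod_le_m hg (hy (1 - i)) J
          have h3 := hstar J
          rw [h1, hya, Fin.sum_univ_two]
          omega)
        rw [Fin.sum_univ_two] at hxs
        refine ⟨x, fun k => ⟨(mem_base_iff hg).mpr (Or.inr ⟨i, hx k⟩), ?_⟩, by
          rw [Fin.sum_univ_two]; exact hxs⟩
        intro hxa
        rw [Set.mem_singleton_iff] at hxa
        -- the other summand would be the other part
        have : ∀ z, z ∈ Z g (W i) → n = a + z → False := by
          intro z hz e
          have e2 : z = y (1 - i) := by omega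
          exact hyn (Z_disjoint hg (hW.disjoint _ _ (hne i)) (hy (1 - i)) (e2 ▸ hz))
        fin_cases k
        · exact this (x 1) (hx 1) (by rw [hxs]; simp only [Fin.zero_eta] at hxa; rw [hxa])
        · exact this (x 0) (hx 0) (by
            rw [hxs]; simp only [Fin.mk_one] at hxa; rw [hxa, add_comm])
      · refine ⟨y, fun k => ⟨(mem_base_iff hg).mpr (Or.inr ⟨k, hy k⟩), ?_⟩, hys⟩
        by_cases hk : k = i
        · subst hk; exact hya
        · rw [hother i k hk]; exact hya'

theorem other_iff {W : Fin 2 → Set ℕ} (hW : IsPartition W) (i : Fin 2) (j : ℕ) :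
    j ∈ W (1 - i) ↔ j ∉ W i := by
  have hne : ∀ i : Fin 2, 1 - i ≠ i := by decide
  have hother : ∀ i c : Fin 2, c ≠ i → c = 1 - i := by decide
  constructor
  · intro hj hj'
    exact Set.disjoint_left.mp (hW.disjoint _ _ (hne i)) hj hj'
  · intro hj
    have hj' : j ∈ ⋃ i, W i := by rw [hW.union]; trivial
    obtain ⟨c, hc⟩ := Set.mem_iUnion.mp hj'
    have : c ≠ i := by rintro rfl; exact hj hc
    rwa [hother i c this] at hc

theorem base_eq_BB (hg : IsGadic g) (W : Fin 2 → Set ℕ) (i : Fin 2) :
    base g W = BB g (W i) (W (1 - i)) := by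
  ext n
  rw [mem_base_iff hg]
  constructor
  · rintro (rfl | ⟨c, hc⟩)
    · exact Or.inl (zero_mem_Z _)
    · by_cases h : c = i
      · exact Or.inl (h ▸ hc)
      · have hother : ∀ i c : Fin 2, c ≠ i → c = 1 - i := by decide
        exact Or.inr (hother i c h ▸ hc)
  · rintro (h | h)
    · exact Or.inr ⟨_, h⟩
    · exact Or.inr ⟨_, h⟩

/-- Removable elements when both parts are infinite and `0` lies in the first part. -/
theorem removable_two {W : Fin 2 → Set ℕ} (hg : IsGadic g) (hW : IsPartition W) (i : Fin 2)
    (h0 : 0 ∈ W i) (h1 : (W i).Infinite) (h2 : (W (1 - i)).Infinite) {a : ℕ} (ha0 : a ≠ 0)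
    (ha : a ∈ base g W) :
    IsAsymptoticBasis 2 (base g W \ {a}) ↔ a ∈ Z g (W i) ∧ Free g (W i) (W (1 - i)) a := by
  rw [order_two hg hW a ha]
  constructor
  · rintro (h | ⟨c, hc, hf⟩)
    · exact absurd h ha0
    · obtain ⟨_, hcZ⟩ := (mem_AG_iff hg).mp hc
      by_cases hci : c = i
      · subst hci
        rcases hf with hf | hf
        · exact absurd hf h2
        · exact ⟨hcZ, hf⟩
      · have hother : ∀ i c : Fin 2, c ≠ i → c = 1 - i ∧ 1 - c = i := by decide
        obtain ⟨e1, e2⟩ := hother i c hci
        rw [e2] at hf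
        rcases hf with hf | hf
        · exact absurd hf h1
        · obtain ⟨_, k, hk, _⟩ := hf 0 h0
          omega
  · rintro ⟨h3, h4⟩
    exact Or.inr ⟨i, (mem_AG_iff hg).mpr ⟨ha0, h3⟩, Or.inr h4⟩

end Pool.Agent.Q136.GA
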