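import Pool.Agent.Q136.GA.Base

/-!
`G`-adic bases: definitions, canonical parts, and the removable elements.
-/

namespace Pool.Agent.Q136.GA

open Finset

/-- `A_G(W)`: positive integers whose digits are supported in `W`. -/
def AG (g : ℕ → ℕ) (W : Set ℕ) : Set ℕ :=
  {n | ∃ (F : Finset ℕ) (x : ℕ → ℕ), F.Nonempty ∧ (∀ j ∈ F, j ∈ W) ∧
    (∀ j ∈ F, 1 ≤ x j ∧ x j ≤ g (j + 1) / g j - 1) ∧ n = ∑ j ∈ F, x j * g j}

/-- `h A`. -/
def sumset (h : ℕ) (A : Set ℕ) : Set ℕ :=
  {n | ∃ a : Fin h → ℕ, (∀ i, a i ∈ A) ∧ n = ∑ i, a i}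

/-- Asymptotic basis of order `h`. -/
def IsAsymptoticBasis (h : ℕ) (A : Set ℕ) : Prop := ∃ N, ∀ n, N ≤ n → n ∈ sumset h A

/-- A partition of `ℕ` into `h` nonempty parts. -/
structure IsPartition {h : ℕ} (W : Fin h → Set ℕ) : Prop where
  nonempty : ∀ i, (W i).Nonempty
  disjoint : ∀ i j, i ≠ j → Disjoint (W i) (W j)
  union : (⋃ i, W i) = Set.univ

/-- `A = {0} ∪ ⋃ A_G(W i)`. -/
def base {h : ℕ} (g : ℕ → ℕ) (W : Fin h → Set ℕ) : Set ℕ := {0} ∪ ⋃ i, AG g (W i)

variable {g : ℕ → ℕ}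

theorem mem_AG_iff (hg : IsGadic g) {W : Set ℕ} {n : ℕ} :
    n ∈ AG g W ↔ n ≠ 0 ∧ n ∈ Z g W := by
  classical
  constructor
  · rintro ⟨F, x, hF, hW, hx, rfl⟩
    set J := F.sup id + 1 with hJ
    have hFJ : F ⊆ range J := by
      intro j hj
      rw [mem_range, hJ]
      exact Nat.lt_succ_of_le (Finset.le_sup (f := id) hj)
    have e : ∑ j ∈ F, x j * g j = ∑ j ∈ range J, (if j ∈ F then x j else 0) * g j := by
      rw [← Finset.sum_subset hFJ (f := fun j => (if j ∈ F then x j else 0) * g j)]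
      · exact sum_congr rfl fun j hj => by simp [hj]
      · intro j _ hj
        simp [hj]
    have hs : ∀ j < J, (if j ∈ F then x j else 0) < q g j := by
      intro j _
      have := q_two hg j
      split
      · rename_i h
        have h2 := (hx j h).2
        unfold q at this ⊢
        omega
      · omega
    refine ⟨?_, ?_⟩
    · obtain ⟨j, hj⟩ := hF
      have : 0 < ∑ j ∈ F, x j * g j := Finset.sum_pos'
        (fun i _ => Nat.zero_le _) ⟨j, hj, Nat.mul_pos (hx j hj).1 (hg.pos j)⟩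
      omega
    · rw [e]
      apply sum_mem_Z hg W J _ hs
      intro j _ hj
      have : j ∉ F := fun h => hj (hW j h)
      simp [this]
  · rintro ⟨h0, hn⟩
    refine ⟨(range n).filter (fun j => dig g n j ≠ 0), dig g n, ?_, ?_, ?_, ?_⟩
    · by_contra hne
      rw [Finset.not_nonempty_iff_eq_empty, Finset.filter_eq_empty_iff] at hne
      apply h0
      have := mod_eq_sum hg n n
      rw [Nat.mod_eq_of_lt (hg.le n)] at this
      rw [this]
      apply sum_eq_zero
      intro j hj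
      have := hne hj
      push Not at this
      rw [this, zero_mul]
    · intro j hj
      by_contra hW
      exact (mem_filter.mp hj).2 (hn j hW)
    · intro j hj
      have h1 := (mem_filter.mp hj).2
      have h2 := dig_lt hg n j
      unfold q at h2
      omega
    · have := mod_eq_sum hg n n
      rw [Nat.mod_eq_of_lt (hg.le n)] at this
      conv_lhs => rw [this]
      rw [Finset.sum_filter]
      apply sum_congr rfl
      intro j _
      by_cases h : dig g n j = 0 <;> simp [h]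

theorem Z_disjoint (hg : IsGadic g) {U V : Set ℕ} (h : Disjoint U V) {n : ℕ}
    (hU : n ∈ Z g U) (hV : n ∈ Z g V) : n = 0 := by
  apply ext_dig hg
  intro j
  have h0 : dig g 0 j = 0 := by simp [dig]
  rw [h0]
  by_cases hj : j ∈ U
  · exact hV j fun hj' => Set.disjoint_left.mp h hj hj'
  · exact hU j hj

theorem Z_lt (hg : IsGadic g) {W : Set ℕ} {J n : ℕ} (hW : ∀ j ∈ W, j < J) (hn : n ∈ Z g W) :
    n < g J := by
  have h1 := mod_eq_sum hg n n
  rw [Nat.mod_eq_of_lt (hg.le n)] at h1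
  have h2 := mod_eq_sum hg n (n + J)
  have h3 := mod_eq_sum hg n J
  rw [Nat.mod_eq_of_lt (lt_of_lt_of_le (hg.le n) (hg.mono.monotone (by omega)))] at h2
  have h4 : ∑ j ∈ range (n + J), dig g n j * g j = ∑ j ∈ range J, dig g n j * g j := by
    symm
    apply Finset.sum_subset
    · intro j hj
      rw [mem_range] at hj ⊢
      omega
    · intro j _ hj
      rw [mem_range] at hj
      rw [hn j fun h => hj (hW j h), zero_mul]
  rw [h4, ← h3] at h2
  rw [h2]
  exact Nat.mod_lt _ (hg.pos J)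

section
variable {h : ℕ} {W : Fin h → Set ℕ}

theorem mem_base_iff (hg : IsGadic g) {n : ℕ} :
    n ∈ base g W ↔ n = 0 ∨ ∃ i, n ∈ Z g (W i) := by
  unfold base
  rw [Set.mem_union, Set.mem_iUnion, Set.mem_singleton_iff]
  constructor
  · rintro (h0 | ⟨i, hi⟩)
    · exact Or.inl h0
    · exact Or.inr ⟨i, ((mem_AG_iff hg).mp hi).2⟩
  · rintro (h0 | ⟨i, hi⟩)
    · exact Or.inl h0
    · by_cases h0 : n = 0
      · exact Or.inl h0
      · exact Or.inr ⟨i, (mem_AG_iff hg).mpr ⟨h0, hi⟩⟩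

theorem dig_sum_parts (hg : IsGadic g) (hW : ∀ i j, i ≠ j → Disjoint (W i) (W j))
    (x : Fin h → ℕ) (hx : ∀ i, x i ∈ Z g (W i)) (j : ℕ) :
    dig g (∑ i, x i) j = ∑ i, dig g (x i) j := by
  classical
  set J := ∑ i, x i + j + 1 with hJ
  have hxJ : ∀ i, x i < g J := fun i =>
    lt_of_le_of_lt (Finset.single_le_sum (f := x) (fun _ _ => Nat.zero_le _) (mem_univ i))
      (lt_of_le_of_lt (by omega) (hg.le J))
  have e : ∑ i, x i = ∑ k ∈ range J, (∑ i, dig g (x i) k) * g k := by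
    have : ∀ i, x i = ∑ k ∈ range J, dig g (x i) k * g k := fun i => by
      rw [← mod_eq_sum hg, Nat.mod_eq_of_lt (hxJ i)]
    calc ∑ i, x i = ∑ i, ∑ k ∈ range J, dig g (x i) k * g k := sum_congr rfl fun i _ => this i
      _ = ∑ k ∈ range J, ∑ i, dig g (x i) k * g k := Finset.sum_comm
      _ = _ := sum_congr rfl fun k _ => by rw [Finset.sum_mul]
  have hs : ∀ k < J, ∑ i, dig g (x i) k < q g k := by
    intro k _
    by_cases hk : ∃ i, k ∈ W i
    · obtain ⟨i, hi⟩ := hk
      rw [Finset.sum_eq_single i]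
      · exact dig_lt hg _ _
      · intro i' _ hne
        exact hx i' k fun hk' => Set.disjoint_left.mp (hW i' i hne) hk' hi
      · simp
    · push Not at hk
      rw [Finset.sum_eq_zero fun i _ => hx i k (hk i)]
      have := q_two hg k
      omega
  rw [e]
  exact (dig_sum hg J _ hs).2 j (by omega)

theorem parts_unique (hg : IsGadic g) (hW : ∀ i j, i ≠ j → Disjoint (W i) (W j))
    {x y : Fin h → ℕ} (hx : ∀ i, x i ∈ Z g (W i)) (hy : ∀ i, y i ∈ Z g (W i))
    (hxy : ∑ i, x i = ∑ i, y i) (i : Fin h) : x i = y i := by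
  apply ext_dig hg
  intro j
  by_cases hj : j ∈ W i
  · have h1 := dig_sum_parts hg hW x hx j
    have h2 := dig_sum_parts hg hW y hy j
    rw [hxy, h2, Finset.sum_eq_single i, Finset.sum_eq_single i] at h1
    · exact h1.symm
    · intro i' _ hne
      exact hx i' j fun hk' => Set.disjoint_left.mp (hW i' i hne) hk' hj
    · simp
    · intro i' _ hne
      exact hy i' j fun hk' => Set.disjoint_left.mp (hW i' i hne) hk' hj
    · simp
  · rw [hx i j hj, hy i j hj]

theorem mod_sum_parts (hg : IsGadic g) (hW : ∀ i j, i ≠ j → Disjoint (W i) (W j))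
    (x : Fin h → ℕ) (hx : ∀ i, x i ∈ Z g (W i)) (J : ℕ) :
    (∑ i, x i) % g J = ∑ i, x i % g J := by
  rw [mod_eq_sum hg]
  simp_rw [dig_sum_parts hg hW x hx, Finset.sum_mul]
  rw [Finset.sum_comm]
  exact sum_congr rfl fun i _ => (mod_eq_sum hg _ _).symm

theorem exists_parts (hg : IsGadic g) (hW : IsPartition W) (n : ℕ) :
    ∃ x : Fin h → ℕ, (∀ i, x i ∈ Z g (W i)) ∧ n = ∑ i, x i := by
  classical
  refine ⟨fun i => partJ g (W i) n n, fun i => partJ_mem hg _ _ _, ?_⟩
  have h1 := mod_eq_sum hg n n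
  rw [Nat.mod_eq_of_lt (hg.le n)] at h1
  unfold partJ
  rw [Finset.sum_comm]
  conv_lhs => rw [h1]
  apply sum_congr rfl
  intro j _
  have hj : j ∈ ⋃ i, W i := by rw [hW.union]; trivial
  obtain ⟨i, hi⟩ := Set.mem_iUnion.mp hj
  rw [Finset.sum_eq_single i]
  · simp [hi]
  · intro i' _ hne
    have : j ∉ W i' := fun hk' => Set.disjoint_left.mp (hW.disjoint i' i hne) hk' hi
    simp [this]
  · simp

end

end Pool.Agent.Q136.GA
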