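import Pool.Agent.Q136.GA.Parts

/-!
Removable elements: general order, and the exact answer for order two.
-/

namespace Pool.Agent.Q136.GA

open Finset

variable {g : ℕ → ℕ} {h : ℕ} {W : Fin h → Set ℕ}

theorem m_tendsto (hg : IsGadic g) {W : Set ℕ} (hW : W.Infinite) (B : ℕ) :
    ∃ K0, ∀ K, K0 ≤ K → B ≤ m g W K := by
  obtain ⟨j, hj, hBj⟩ := hW.exists_gt B
  refine ⟨j + 1, fun K hK => ?_⟩
  have h1 := m_mod hg W hK
  rw [m_succ_of_mem hj] at h1
  have h2 : (1 : ℕ) * g j ≤ (q g j - 1) * g j :=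
    Nat.mul_le_mul_right _ (by have := q_two hg j; omega)
  have h3 := Nat.mod_le (m g W K) (g (j + 1))
  have h4 := hg.le j
  omega

/-- Necessary condition. -/
theorem removable_necessary (hg : IsGadic g) (hW : IsPartition W) (i0 : Fin h) {a : ℕ}
    (ha : a ∈ Z g (W i0)) (hinf : (W i0)ᶜ.Infinite)
    (hbas : IsAsymptoticBasis h (base g W \ {a})) :
    ∃ φ : Fin h → Fin h, ¬ Function.Injective φ ∧
      ∀ J, a % g J + ∑ i ∈ univ.erase i0, m g (W i) J ≤ ∑ i, m g (W (φ i)) J := by
  classical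
  obtain ⟨N, hN⟩ := hbas
  -- one of the other parts is infinite
  obtain ⟨i1, hi1, hinf1⟩ : ∃ i1, i1 ≠ i0 ∧ (W i1).Infinite := by
    by_contra hcon
    push Not at hcon
    apply hinf
    have : (W i0)ᶜ ⊆ ⋃ i ∈ (univ.erase i0 : Finset (Fin h)), W i := by
      intro j hj
      have hj' : j ∈ ⋃ i, W i := by rw [hW.union]; trivial
      obtain ⟨i, hi⟩ := Set.mem_iUnion.mp hj'
      refine Set.mem_biUnion (x := i) ?_ hi
      rw [Finset.mem_coe, mem_erase]
      refine ⟨?_, mem_univ _⟩
      rintro rfl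
      exact hj hi
    refine Set.Finite.subset ?_ this
    apply Set.Finite.biUnion (Finset.finite_toSet _)
    intro i hi
    exact hcon i (by simpa using hi)
  obtain ⟨K0, hK0⟩ := m_tendsto hg hinf1 N
  let y : ℕ → Fin h → ℕ := fun K i => if i = i0 then a else m g (W i) K
  have hy : ∀ K i, y K i ∈ Z g (W i) := by
    intro K i
    simp only [y]
    split
    · rename_i e; rw [e]; exact ha
    · exact m_mem hg _ _
  have key : ∀ K, K0 ≤ K → ∃ φ : Fin h → Fin h, ¬ Function.Injective φ ∧
      ∀ J ≤ K, a % g J + ∑ i ∈ univ.erase i0, m g (W i) J ≤ ∑ i, m g (W (φ i)) J := by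
    intro K hK
    have hyN : N ≤ ∑ i, y K i := by
      refine (hK0 K hK).trans ?_
      have := Finset.single_le_sum (f := y K) (fun _ _ => Nat.zero_le _) (mem_univ i1)
      simp only [y, hi1, if_false] at this
      exact this
    obtain ⟨x, hx, hxs⟩ := hN _ hyN
    have hx' : ∀ i, ∃ k, x i ∈ Z g (W k) := by
      intro i
      rcases (mem_base_iff hg).mp (hx i).1 with h0 | hk
      · exact ⟨i, h0 ▸ zero_mem_Z _⟩
      · exact hk
    choose φ hφ using hx'
    refine ⟨φ, ?_, ?_⟩
    · intro hinj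
      have hbij : Function.Bijective φ := Finite.injective_iff_bijective.mp hinj
      set e := Equiv.ofBijective φ hbij with he
      have h1 : ∀ i, x (e.symm i) ∈ Z g (W i) := by
        intro i
        have := hφ (e.symm i)
        have h2 : φ (e.symm i) = i := e.apply_symm_apply i
        rwa [h2] at this
      have h2 : ∑ i, x (e.symm i) = ∑ i, y K i := by
        rw [hxs]
        exact Equiv.sum_comp e.symm x
      have h3 := parts_unique hg hW.disjoint h1 (hy K) h2 i0
      simp only [y, if_true] at h3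
      exact (hx (e.symm i0)).2 h3
    · intro J hJ
      have h1 := criterion_conv hg (fun i => W (φ i)) x hφ J
      rw [← hxs, mod_sum_parts hg hW.disjoint _ (hy K)] at h1
      have h2 : ∑ i, y K i % g J = a % g J + ∑ i ∈ univ.erase i0, m g (W i) J := by
        rw [← Finset.add_sum_erase _ _ (mem_univ i0)]
        congr 1
        · simp [y]
        · apply sum_congr rfl
          intro i hi
          simp only [y, (mem_erase.mp hi).1, if_false]
          exact m_mod hg _ hJ
      rwa [h2] at h1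
  have key' : ∀ K, ∃ φ : Fin h → Fin h, ¬ Function.Injective φ ∧
      ∀ J ≤ K, a % g J + ∑ i ∈ univ.erase i0, m g (W i) J ≤ ∑ i, m g (W (φ i)) J := by
    intro K
    obtain ⟨φ, h1, h2⟩ := key (K0 + K) (by omega)
    exact ⟨φ, h1, fun J hJ => h2 J (by omega)⟩
  choose Φ hΦ1 hΦ2 using key'
  obtain ⟨φ, hφ⟩ := Finite.exists_infinite_fiber Φ
  rw [Set.infinite_coe_iff] at hφ
  obtain ⟨K, hK⟩ := hφ.nonempty
  have hK' : Φ K = φ := hK
  refine ⟨φ, hK' ▸ hΦ1 K, ?_⟩
  intro J
  obtain ⟨K, hK, hJK⟩ := hφ.exists_gt J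
  have hK' : Φ K = φ := hK
  have := hΦ2 K J hJK.le
  rwa [hK'] at this

/-- Sufficient condition. -/
theorem removable_sufficient (hg : IsGadic g) (hW : IsPartition W) (i0 : Fin h) {a : ℕ}
    (ha0 : a ≠ 0) (ha : a ∈ Z g (W i0)) (φ : Fin h → Fin h) (hφ : ∀ i, φ i ≠ i0)
    (hstar : ∀ J, a % g J + ∑ i ∈ univ.erase i0, m g (W i) J ≤ ∑ i, m g (W (φ i)) J) :
    IsAsymptoticBasis h (base g W \ {a}) := by
  classical
  refine ⟨0, fun n _ => ?_⟩
  have hne : ∀ i, i ≠ i0 → ∀ x, x ∈ Z g (W i) → x ≠ a := by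
    rintro i hi x hx rfl
    exact ha0 (Z_disjoint hg (hW.disjoint i i0 hi) hx ha)
  obtain ⟨y, hy, hys⟩ := exists_parts hg hW n
  by_cases hya : y i0 = a
  · obtain ⟨x, hx, hxs⟩ := criterion hg (fun i => W (φ i)) n (by
      intro J
      rw [hys, mod_sum_parts hg hW.disjoint _ hy, ← Finset.add_sum_erase _ _ (mem_univ i0), hya]
      exact (Nat.add_le_add_left (sum_le_sum fun i _ => mod_le_m hg (hy i) J) _).trans (hstar J))
    exact ⟨x, fun i => ⟨(mem_base_iff hg).mpr (Or.inr ⟨φ i, hx i⟩),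
      hne (φ i) (hφ i) (x i) (hx i)⟩, hxs⟩
  · refine ⟨y, fun i => ⟨(mem_base_iff hg).mpr (Or.inr ⟨i, hy i⟩), ?_⟩, hys⟩
    by_cases hi : i = i0
    · subst hi; exact hya
    · exact hne i hi _ (hy i)

/-- The part is cofinite: everything in it is removable. -/
theorem removable_cofinite (hg : IsGadic g) (hW : IsPartition W) (i0 : Fin h) {a : ℕ}
    (ha0 : a ≠ 0) (ha : a ∈ Z g (W i0)) (hfin : (W i0)ᶜ.Finite) :
    IsAsymptoticBasis h (base g W \ {a}) := by
  classical
  obtain ⟨J, hJ⟩ := hfin.bddAbove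
  refine ⟨a + h * g (J + 1) + 1, fun n hn => ?_⟩
  obtain ⟨y, hy, hys⟩ := exists_parts hg hW n
  have hne : ∀ i, i ≠ i0 → ∀ x, x ∈ Z g (W i) → x ≠ a := by
    rintro i hi x hx rfl
    exact ha0 (Z_disjoint hg (hW.disjoint i i0 hi) hx ha)
  refine ⟨y, fun i => ⟨(mem_base_iff hg).mpr (Or.inr ⟨i, hy i⟩), ?_⟩, hys⟩
  by_cases hi : i = i0
  · subst hi
    intro hya
    rw [Set.mem_singleton_iff] at hya
    have h1 : ∀ k ∈ univ.erase i, y k ≤ g (J + 1) := by
      intro k hk
      refine (Z_lt hg (W := W k) ?_ (hy k)).le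
      intro j hj
      have : j ∈ (W i)ᶜ := fun hj' =>
        Set.disjoint_left.mp (hW.disjoint k i (mem_erase.mp hk).1) hj hj'
      exact Nat.lt_succ_of_le (hJ this)
    have h2 := Finset.sum_le_card_nsmul _ _ _ h1
    rw [← Finset.add_sum_erase _ _ (mem_univ i), hya] at hys
    have h3 : (univ.erase i : Finset (Fin h)).card ≤ h := by
      refine (Finset.card_le_univ _).trans ?_
      simp
    rw [smul_eq_mul] at h2
    have h4 := Nat.mul_le_mul_right (g (J + 1)) h3
    have h5 : ∑ k ∈ univ.erase i, y k ≤ h * g (J + 1) := h2.trans h4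
    omega
  · exact hne i hi _ (hy i)

theorem m_sum (hg : IsGadic g) (hW : IsPartition W) (J : ℕ) :
    ∑ i, m g (W i) J + 1 = g J := by
  classical
  induction J with
  | zero => simp [m_zero, hg.zero]
  | succ J ih =>
    have hJ : J ∈ ⋃ i, W i := by rw [hW.union]; trivial
    obtain ⟨i, hi⟩ := Set.mem_iUnion.mp hJ
    have h1 : ∑ k, m g (W k) (J + 1) = ∑ k, m g (W k) J + (q g J - 1) * g J := by
      simp_rw [m_succ]
      rw [Finset.sum_add_distrib]
      congr 1
      rw [Finset.sum_eq_single i]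
      · simp [hi]
      · intro k _ hk
        have : J ∉ W k := fun h' => Set.disjoint_left.mp (hW.disjoint k i hk) h' hi
        simp [this]
      · simp
    rw [h1, g_succ hg]
    have h2 := q_two hg J
    obtain ⟨r, hr⟩ := Nat.exists_eq_add_of_le h2
    rw [hr]
    have : 2 + r - 1 = r + 1 := by omega
    rw [this]
    nlinarith

/-- A block with large ratio in a part which is not used: the condition fails. -/
theorem block_obstruction (hg : IsGadic g) (hW : IsPartition W) (i0 c : Fin h) (hc : c ≠ i0)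
    {s e : ℕ} (hse : s ≤ e) (hblock : ∀ j, s ≤ j → j < e → j ∈ W c) (hratio : h * g s < g e)
    (φ : Fin h → Fin h) (hφ : ∀ i, φ i ≠ c) (a : ℕ) :
    ¬ (a % g e + ∑ i ∈ univ.erase i0, m g (W i) e ≤ ∑ i, m g (W (φ i)) e) := by
  classical
  intro hcon
  have hother : ∀ k, k ≠ c → m g (W k) e = m g (W k) s := by
    intro k hk
    have : ∀ t, s ≤ t → t ≤ e → m g (W k) t = m g (W k) s := by
      intro t ht
      induction t, ht using Nat.le_induction with
      | base => intro _; rfl
      | succ t ht ih =>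
        intro hte
        rw [m_succ_of_not, ih (by omega)]
        exact fun h' => Set.disjoint_left.mp (hW.disjoint k c hk) h' (hblock t ht (by omega))
    exact this e hse le_rfl
  have h1 := m_sum hg hW e
  have h2 := m_sum hg hW s
  rw [← Finset.add_sum_erase _ _ (mem_univ c)] at h1 h2
  rw [Finset.sum_congr rfl fun k hk => hother k (mem_erase.mp hk).1] at h1
  -- the sum on the right
  have h3 : ∑ i, m g (W (φ i)) e ≤ h * (g s - 1) := by
    calc ∑ i, m g (W (φ i)) e ≤ ∑ _i : Fin h, (g s - 1) := by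
          apply sum_le_sum
          intro i _
          rw [hother _ (hφ i)]
          have := m_lt hg (W (φ i)) s
          omega
      _ = h * (g s - 1) := by simp
  have h4 : m g (W c) e ≤ ∑ i ∈ univ.erase i0, m g (W i) e :=
    Finset.single_le_sum (f := fun i => m g (W i) e) (fun _ _ => Nat.zero_le _)
      (mem_erase.mpr ⟨hc, mem_univ c⟩)
  have h5 : g e - g s ≤ m g (W c) e := by omega
  have h6 := hg.pos s
  have hh : 1 ≤ h := by
    rcases Nat.eq_zero_or_pos h with h0 | h0
    · subst h0; exact c.elim0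
    · exact h0
  have h7 : h * (g s - 1) + h = h * g s := by
    obtain ⟨r, hr⟩ := Nat.exists_eq_add_of_le h6
    rw [hr]
    have : 1 + r - 1 = r := by omega
    simp only [this]
    ring
  obtain ⟨t, ht⟩ := g_dvd hg hse
  have h8 : h + 1 ≤ t := by
    by_contra hlt
    have : g s * t ≤ g s * h := Nat.mul_le_mul_left _ (by omega)
    have e2 : h * g s = g s * h := by ring
    omega
  have h9 : g s * (h + 1) ≤ g e := by
    rw [ht]
    exact Nat.mul_le_mul_left _ h8
  have h10 : g s * (h + 1) = h * g s + g s := by ring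
  omega

/-- If nothing but the part of `a` is missing, the condition fails. -/
theorem own_part_obstruction (hg : IsGadic g) (hW : IsPartition W) (i0 : Fin h) {a : ℕ}
    (ha0 : a ≠ 0) (ha : a ∈ Z g (W i0)) (φ : Fin h → Fin h) (hφ : ¬ Function.Injective φ)
    (hsurj : ∀ c, c ≠ i0 → ∃ i, φ i = c) :
    ¬ (∀ J, a % g J + ∑ i ∈ univ.erase i0, m g (W i) J ≤ ∑ i, m g (W (φ i)) J) := by
  classical
  intro hcon
  -- lowest nonzero digit
  have hex : ∃ j, dig g a j ≠ 0 := by
    by_contra hne
    push Not at hne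
    exact ha0 (ext_dig hg fun j => by rw [hne j]; simp [dig])
  set j0 := Nat.find hex with hj0
  have hj1 : dig g a j0 ≠ 0 := Nat.find_spec hex
  have hj2 : ∀ j < j0, dig g a j = 0 := fun j hj => by
    have := Nat.find_min hex hj
    push Not at this
    exact this
  have hj3 : j0 ∈ W i0 := by
    by_contra hn
    exact hj1 (ha j0 hn)
  have h1 := hcon (j0 + 1)
  have h2 : g j0 ≤ a % g (j0 + 1) := by
    rw [mod_succ hg]
    have : 1 * g j0 ≤ dig g a j0 * g j0 := Nat.mul_le_mul_right _ (by omega)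
    omega
  -- a section of φ
  have hsec : ∀ c : Fin h, ∃ i, c ≠ i0 → φ i = c := by
    intro c
    by_cases hc : c = i0
    · exact ⟨c, fun h' => absurd hc h'⟩
    · obtain ⟨i, hi⟩ := hsurj c hc
      exact ⟨i, fun _ => hi⟩
  choose σ hσ using hsec
  have hinj : Set.InjOn σ (univ.erase i0 : Finset (Fin h)) := by
    intro c hc c' hc' e
    have hc := (mem_erase.mp (Finset.mem_coe.mp hc)).1
    have hc' := (mem_erase.mp (Finset.mem_coe.mp hc')).1
    rw [← hσ c hc, ← hσ c' hc', e]
  have hcard : ((univ.erase i0).image σ).card = h - 1 := by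
    rw [Finset.card_image_of_injOn hinj, Finset.card_erase_of_mem (mem_univ _)]
    simp
  have hh : 1 ≤ h := by
    rcases Nat.eq_zero_or_pos h with h0 | h0
    · subst h0; exact i0.elim0
    · exact h0
  have hcard2 : (univ \ (univ.erase i0).image σ : Finset (Fin h)).card = 1 := by
    rw [Finset.card_sdiff_of_subset (Finset.subset_univ _), hcard]
    simp
    omega
  obtain ⟨k, hk⟩ := Finset.card_eq_one.mp hcard2
  have hφi0 : ∀ i, φ i ≠ i0 := by
    intro i hi
    apply hφ
    apply Finite.injective_iff_surjective.mpr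
    intro c
    by_cases hc : c = i0
    · exact ⟨i, hi.trans hc.symm⟩
    · exact hsurj c hc
  have hnot : ∀ c, c ≠ i0 → m g (W c) (j0 + 1) = m g (W c) j0 := fun c hc =>
    m_succ_of_not fun h' => Set.disjoint_left.mp (hW.disjoint c i0 hc) h' hj3
  have h3 : ∑ i, m g (W (φ i)) (j0 + 1) =
      ∑ c ∈ univ.erase i0, m g (W c) (j0 + 1) + m g (W (φ k)) (j0 + 1) := by
    rw [← Finset.sum_sdiff (Finset.subset_univ ((univ.erase i0).image σ)), hk,
      Finset.sum_singleton, add_comm, Finset.sum_image hinj]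
    congr 1
    apply sum_congr rfl
    intro c hc
    rw [hσ c (mem_erase.mp hc).1]
  have h4 := m_lt hg (W (φ k)) j0
  rw [h3, hnot _ (hφi0 k)] at h1
  omega

end Pool.Agent.Q136.GA
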