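import Pool.Agent.Q136.GA.MinTwo

/-!
Which elements satisfy the digit condition of order two.
-/

namespace Pool.Agent.Q136.GA

open Finset

variable {g : ℕ → ℕ} {U V : Set ℕ}

/-- The shape of `V`: every `d_{j+1}`, `j ∈ V`, is `2`, no two consecutive elements. -/
def Sparse (g : ℕ → ℕ) (V : Set ℕ) : Prop := ∀ j ∈ V, g (j + 1) = 2 * g j ∧ j + 1 ∉ V

theorem free_sparse (hUV : ∀ j, j ∈ V ↔ j ∉ U) {a : ℕ} (hf : Free g U V a) : Sparse g V := by
  intro j hj
  refine ⟨(hf j hj).1, fun hj' => ?_⟩
  obtain ⟨_, i, hi, hiU, _⟩ := hf (j + 1) hj'
  exact (hUV j).mp hj (hiU j (by omega) (by omega))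

theorem free_of_sparse (hg : IsGadic g) (hUV : ∀ j, j ∈ V ↔ j ∉ U) (h0 : 0 ∈ U)
    (hs : Sparse g V) {a : ℕ}
    (H : ∀ j, j + 1 ∈ V → j ∈ U →
      ∃ i ≤ j, (∀ k, i ≤ k → k ≤ j → k ∈ U) ∧ dig g a i ≠ q g i - 1) : Free g U V a := by
  intro j hj
  refine ⟨(hs j hj).1, ?_⟩
  have hj0 : j ≠ 0 := by
    rintro rfl
    exact (hUV 0).mp hj h0
  obtain ⟨j', rfl⟩ := Nat.exists_eq_succ_of_ne_zero hj0
  have hj'U : j' ∈ U := by
    by_contra hn
    exact (hs j' ((hUV j').mpr hn)).2 hj
  obtain ⟨i, hi, hiU, hd⟩ := H j' hj hj'U
  exact ⟨i, by omega, fun k hk1 hk2 => hiU k hk1 (by omega), hd⟩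

theorem dig_g (hg : IsGadic g) (i j : ℕ) : dig g (g i) j = if j = i then 1 else 0 := by
  have := dig_add_top hg (hg.pos i) (show 1 < q g i by have := q_two hg i; omega) j
  rw [one_mul, add_zero] at this
  rw [this]
  by_cases h : j = i
  · simp [h]
  · simp [h, dig]

/-- The exceptional shape. -/
theorem special (hg : IsGadic g) (hUV : ∀ j, j ∈ V ↔ j ∉ U) (h0 : 0 ∈ U) :
    (∀ b ∈ Z g U, b ≠ 0 → b ≠ 1 → ¬ Free g U V b) ↔
      (¬ Sparse g V ∨ ((∀ j, j ∈ U ↔ Even j) ∧
        ((∀ j, g j = 2 ^ j) ∨ ∀ j, g (j + 1) = 3 * 2 ^ j))) := by
  constructor
  · intro H
    by_cases hs : Sparse g V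
    · right
      have hone : ∀ i ∈ U, i ≠ 0 → q g i = 2 ∧ i - 1 ∉ U := by
        intro i hi hi0
        by_contra hcon
        have hgi := hg.mono (show 0 < i by omega)
        rw [hg.zero] at hgi
        refine H (g i) (one_mul_mem hg hi) (by omega) (by omega) ?_
        apply free_of_sparse hg hUV h0 hs
        intro j hj hjU
        by_cases hji : j = i
        · subst hji
          by_cases hq : q g j = 2
          · have hU' : j - 1 ∈ U := by
              by_contra hn
              exact hcon ⟨hq, hn⟩
            refine ⟨j - 1, by omega, ?_, ?_⟩
            · intro k hk1 hk2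
              have : k = j - 1 ∨ k = j := by omega
              rcases this with h | h
              · rw [h]; exact hU'
              · rw [h]; exact hjU
            · rw [dig_g hg, if_neg (by omega)]
              have := q_two hg (j - 1)
              omega
          · refine ⟨j, le_rfl, ?_, ?_⟩
            · intro k hk1 hk2
              have : k = j := by omega
              rw [this]; exact hjU
            · rw [dig_g hg, if_pos rfl]
              have := q_two hg j
              omega
        · refine ⟨j, le_rfl, ?_, ?_⟩
          · intro k hk1 hk2
            have : k = j := by omega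
            rw [this]; exact hjU
          · rw [dig_g hg, if_neg hji]
            have := q_two hg j
            omega
      have heven : ∀ j, j ∈ U ↔ Even j := by
        intro j
        induction j with
        | zero => simp [h0]
        | succ j ih =>
          rw [Nat.even_add_one, ← ih]
          constructor
          · intro h1 h2
            exact (hone (j + 1) h1 (by omega)).2 (by simpa using h2)
          · intro h1
            by_contra h2
            exact (hs j ((hUV j).mpr h1)).2 ((hUV (j + 1)).mpr h2)
      refine ⟨heven, ?_⟩
      have hq2 : ∀ i, i ≠ 0 → q g i = 2 := by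
        intro i hi
        by_cases hiU : i ∈ U
        · exact (hone i hiU hi).1
        · have := (hs i ((hUV i).mpr hiU)).1
          unfold q
          rw [this, Nat.mul_div_cancel _ (hg.pos i)]
      have hq0 : q g 0 < 4 := by
        by_contra hq
        push Not at hq
        have h2Z : 2 ∈ Z g U := by
          have := mul_mem hg h0 (show 2 < q g 0 by omega)
          rwa [hg.zero] at this
        have hd2 : ∀ j, dig g 2 j = if j = 0 then 2 else 0 := by
          intro j
          have := dig_add_top hg (hg.pos 0) (show 2 < q g 0 by omega) j
          rw [hg.zero, mul_one, add_zero] at this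
          rw [this]
          by_cases h : j = 0
          · simp [h]
          · simp [h, dig]
        refine H 2 h2Z (by norm_num) (by norm_num) ?_
        apply free_of_sparse hg hUV h0 hs
        intro j hj hjU
        refine ⟨j, le_rfl, ?_, ?_⟩
        · intro k hk1 hk2
          have : k = j := by omega
          rw [this]; exact hjU
        · rw [hd2]
          by_cases hj0 : j = 0
          · subst hj0
            simp only [if_true]
            omega
          · simp only [hj0, if_false]
            have := q_two hg j
            omega
      have hq0' := q_two hg 0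
      have h1 : g 1 = q g 0 := by
        have := g_succ hg 0
        rw [hg.zero, one_mul] at this
        exact this
      have hg' : ∀ j, g (j + 1) = q g 0 * 2 ^ j := by
        intro j
        induction j with
        | zero => rw [h1, pow_zero, mul_one]
        | succ j ih =>
          rw [g_succ hg, ih, hq2 (j + 1) (by omega), pow_succ]
          ring
      have : q g 0 = 2 ∨ q g 0 = 3 := by omega
      rcases this with h | h
      · left
        intro j
        cases j with
        | zero => simp [hg.zero]
        | succ j => rw [hg', h, pow_succ]; ring
      · right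
        intro j
        rw [hg', h]
    · exact Or.inl hs
  · rintro (hns | ⟨heven, hgs⟩) b hb hb0 hb1 hf
    · exact hns (free_sparse hUV hf)
    · have hqi : ∀ i, i ≠ 0 → q g i = 2 := by
        intro i hi
        obtain ⟨i', rfl⟩ := Nat.exists_eq_succ_of_ne_zero hi
        unfold q
        rcases hgs with h | h
        · rw [h, h, pow_succ, Nat.mul_comm, Nat.mul_div_cancel _ (by positivity)]
        · rw [Nat.succ_eq_add_one, h, h, pow_succ]
          have : 3 * (2 ^ i' * 2) = 2 * (3 * 2 ^ i') := by ring
          rw [this, Nat.mul_div_cancel _ (by positivity)]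
      have hdig : ∀ i, i ≠ 0 → dig g b i = 0 := by
        intro i hi
        by_cases hiU : i ∈ U
        · have hev := (heven i).mp hiU
          have hV : i + 1 ∈ V := (hUV _).mpr fun h' => by
            have := (heven _).mp h'
            rw [Nat.even_add_one] at this
            exact this hev
          obtain ⟨_, i', hi', hiU', hd⟩ := hf (i + 1) hV
          have : i' = i := by
            by_contra hne
            have h1 : i - 1 ∈ U := hiU' (i - 1) (by omega) (by omega)
            have h2 := (heven _).mp h1
            obtain ⟨c, hc⟩ := hev
            obtain ⟨c', hc'⟩ := h2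
            omega
          subst this
          change dig g b i' ≠ q g i' - 1 at hd
          rw [hqi i' hi] at hd
          have := dig_lt hg b i'
          rw [hqi i' hi] at this
          omega
        · exact hb i hiU
      have hdig0 : dig g b 0 = 0 ∨ dig g b 0 = 1 := by
        have hV : 0 + 1 ∈ V := (hUV _).mpr fun h' => by
          have := (heven _).mp h'
          rw [Nat.even_add_one] at this
          exact this (by simp)
        obtain ⟨_, i', hi', _, hd⟩ := hf (0 + 1) hV
        have : i' = 0 := by omega
        subst this
        change dig g b 0 ≠ q g 0 - 1 at hd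
        have h1 := dig_lt hg b 0
        have h2 : q g 0 = 2 ∨ q g 0 = 3 := by
          unfold q
          rw [hg.zero]
          rcases hgs with h | h
          · left; rw [h]; norm_num
          · right; rw [h]; norm_num
        omega
      rcases hdig0 with h | h
      · apply hb0
        apply ext_dig hg
        intro j
        by_cases hj : j = 0
        · subst hj; rw [h]; simp [dig]
        · rw [hdig j hj]; simp [dig]
      · apply hb1
        apply ext_dig hg
        intro j
        have h1 := dig_g hg 0 j
        rw [hg.zero] at h1
        rw [h1]
        by_cases hj : j = 0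
        · subst hj; rw [h]; simp
        · rw [hdig j hj]; simp [hj]

end Pool.Agent.Q136.GA
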