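import Pool.Agent.Q136.GA.Rem

/-!
Splitting elements, the asymptotic basis without zero, and the order two criterion.
-/

namespace Pool.Agent.Q136.GA

open Finset

variable {g : ℕ → ℕ}

theorem mem_sumset_iff {h : ℕ} {A : Set ℕ} {n : ℕ} :
    n ∈ sumset h A ↔ ∃ s : Multiset ℕ, s.card = h ∧ (∀ x ∈ s, x ∈ A) ∧ s.sum = n := by
  constructor
  · rintro ⟨a, ha, rfl⟩
    refine ⟨(univ : Finset (Fin h)).val.map a, by simp, ?_, rfl⟩
    intro x hx
    obtain ⟨i, _, rfl⟩ := Multiset.mem_map.mp hx
    exact ha i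
  · rintro ⟨s, hs, hA, rfl⟩
    induction h generalizing s with
    | zero =>
      rw [Multiset.card_eq_zero] at hs
      subst hs
      exact ⟨fun i => i.elim0, fun i => i.elim0, by simp⟩
    | succ h ih =>
      obtain ⟨x, hx⟩ := Multiset.card_pos_iff_exists_mem.mp (show 0 < s.card by omega)
      obtain ⟨t, rfl⟩ := Multiset.exists_cons_of_mem hx
      rw [Multiset.card_cons] at hs
      obtain ⟨a, ha, has⟩ := ih t (by omega) fun y hy => hA y (Multiset.mem_cons_of_mem hy)
      refine ⟨Fin.cons x a, ?_, ?_⟩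
      · intro i
        refine Fin.cases ?_ ?_ i
        · simpa using hA x hx
        · intro j
          simpa using ha j
      · rw [Multiset.sum_cons, has, Fin.sum_univ_succ]
        simp

theorem dig_mod (hg : IsGadic g) (n p j : ℕ) :
    dig g (n % g p) j = if j < p then dig g n j else 0 := by
  split
  · rename_i h
    have h1 := dig_sum hg p (dig g n) fun j _ => dig_lt hg n j
    rw [mod_eq_sum hg]
    exact h1.2 j h
  · rename_i h
    exact dig_eq_zero_of_lt hg (lt_of_lt_of_le (Nat.mod_lt _ (hg.pos p))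
      (hg.mono.monotone (by omega)))

theorem mod_mem (hg : IsGadic g) {U : Set ℕ} {n : ℕ} (hn : n ∈ Z g U) (p : ℕ) :
    n % g p ∈ Z g U := by
  intro j hj
  rw [dig_mod hg]
  split
  · exact hn j hj
  · rfl

theorem dig_add_top (hg : IsGadic g) {p u r : ℕ} (hr : r < g p) (hu : u < q g p) (j : ℕ) :
    dig g (u * g p + r) j = if j = p then u else dig g r j := by
  have hgp := hg.pos p
  rcases lt_trichotomy j p with h | h | h
  · rw [if_neg (by omega)]
    obtain ⟨c, hc⟩ := g_dvd hg (show j + 1 ≤ p by omega)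
    unfold dig
    rw [hc, g_succ hg j]
    have e : u * (g j * q g j * c) + r = r + g j * (q g j * (u * c)) := by ring
    rw [e, Nat.add_mul_div_left _ _ (hg.pos j), Nat.add_mul_mod_self_left]
  · subst h
    rw [if_pos rfl]
    unfold dig
    rw [add_comm, Nat.add_mul_div_right _ _ hgp, Nat.div_eq_of_lt hr, zero_add]
    exact Nat.mod_eq_of_lt hu
  · rw [if_neg (by omega)]
    have h1 : u * g p + r < g (p + 1) := by
      rw [g_succ hg]
      have : (u + 1) * g p ≤ q g p * g p := Nat.mul_le_mul_right _ (by omega)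
      nlinarith
    rw [dig_eq_zero_of_lt hg (lt_of_lt_of_le h1 (hg.mono.monotone h)),
      dig_eq_zero_of_lt hg (lt_of_lt_of_le hr (hg.mono.monotone h.le))]

theorem add_top_mem (hg : IsGadic g) {U : Set ℕ} {p u r : ℕ} (hp : p ∈ U) (hr : r < g p)
    (hrU : r ∈ Z g U) (hu : u < q g p) : u * g p + r ∈ Z g U := by
  intro j hj
  rw [dig_add_top hg hr hu, if_neg (fun h : j = p => hj (h ▸ hp))]
  exact hrU j hj

theorem mul_mem (hg : IsGadic g) {U : Set ℕ} {p u : ℕ} (hp : p ∈ U) (hu : u < q g p) :
    u * g p ∈ Z g U := by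
  have := add_top_mem hg hp (hg.pos p) (zero_mem_Z U) hu
  simpa using this

theorem one_mul_mem (hg : IsGadic g) {U : Set ℕ} {p : ℕ} (hp : p ∈ U) : g p ∈ Z g U := by
  have := mul_mem hg hp (show 1 < q g p by have := q_two hg p; omega)
  simpa using this

/-- The top digit. -/
theorem exists_top (hg : IsGadic g) {U : Set ℕ} {n : ℕ} (h0 : n ≠ 0) (hn : n ∈ Z g U) :
    ∃ p u r, p ∈ U ∧ 1 ≤ u ∧ u < q g p ∧ r < g p ∧ r ∈ Z g U ∧ n = u * g p + r := by
  have hex : ∃ p, n < g (p + 1) := ⟨n, lt_of_lt_of_le (hg.le n) (hg.mono.monotone (by omega))⟩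
  set p := Nat.find hex with hp
  have h1 : n < g (p + 1) := Nat.find_spec hex
  have h2 : g p ≤ n := by
    rcases Nat.eq_zero_or_pos p with h | h
    · rw [h, hg.zero]; omega
    · have := Nat.find_min hex (show p - 1 < p by omega)
      push Not at this
      rwa [show p - 1 + 1 = p by omega] at this
  have hgp := hg.pos p
  have h3 : n / g p < q g p := by
    rw [Nat.div_lt_iff_lt_mul hgp, mul_comm, ← g_succ hg]
    exact h1
  have h4 : 1 ≤ n / g p := (Nat.one_le_div_iff hgp).mpr h2
  refine ⟨p, n / g p, n % g p, ?_, h4, h3, Nat.mod_lt _ hgp, mod_mem hg hn p, ?_⟩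
  · by_contra hpU
    have := hn p hpU
    unfold dig at this
    rw [Nat.mod_eq_of_lt h3] at this
    omega
  · rw [mul_comm]
    exact (Nat.div_add_mod n (g p)).symm

theorem g_pred (hg : IsGadic g) (p : ℕ) : g (p + 1) = (q g p - 1) * g p + g p := by
  rw [g_succ hg]
  have := q_two hg p
  obtain ⟨r, hr⟩ := Nat.exists_eq_add_of_le this
  rw [hr]
  have : 2 + r - 1 = r + 1 := by omega
  rw [this]
  ring

section
variable {h : ℕ} {W : Fin h → Set ℕ}

/-- The basis without zero. -/
theorem base_ne_zero_iff (hg : IsGadic g) {n : ℕ} :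
    n ∈ base g W \ {0} ↔ n ≠ 0 ∧ ∃ i, n ∈ Z g (W i) := by
  rw [Set.mem_sdiff, mem_base_iff hg, Set.mem_singleton_iff]
  tauto

theorem split_elem (hg : IsGadic g) (hW : IsPartition W) {x : ℕ}
    (hx : x ∈ base g W \ {0}) (h2 : 2 ≤ x) :
    ∃ y z, y ∈ base g W \ {0} ∧ z ∈ base g W \ {0} ∧ x = y + z := by
  simp only [base_ne_zero_iff hg] at hx ⊢
  obtain ⟨h0, i, hi⟩ := hx
  obtain ⟨p, u, r, hp, hu1, hu2, hr, hrU, e⟩ := exists_top hg h0 hi
  have hgp := hg.pos p
  by_cases hr0 : r = 0
  · by_cases hu : u = 1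
    · have hp0 : p ≠ 0 := by
        rintro rfl
        rw [hg.zero, hu, hr0] at e
        omega
      obtain ⟨p', rfl⟩ := Nat.exists_eq_succ_of_ne_zero hp0
      have hj : p' ∈ ⋃ i, W i := by rw [hW.union]; trivial
      obtain ⟨k, hk⟩ := Set.mem_iUnion.mp hj
      have hq := q_two hg p'
      have hgp' := hg.pos p'
      refine ⟨(q g p' - 1) * g p', g p', ⟨?_, k, mul_mem hg hk (by omega)⟩,
        ⟨hgp'.ne', k, one_mul_mem hg hk⟩, ?_⟩
      · exact (Nat.mul_pos (by omega) hgp').ne'
      · rw [e, hu, hr0, one_mul, add_zero]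
        exact g_pred hg p'
    · refine ⟨(u - 1) * g p, g p, ⟨(Nat.mul_pos (by omega) hgp).ne', i,
        mul_mem hg hp (by omega)⟩, ⟨hgp.ne', i, one_mul_mem hg hp⟩, ?_⟩
      obtain ⟨v, rfl⟩ : ∃ v, u = v + 1 := ⟨u - 1, by omega⟩
      rw [e, hr0]
      simp only [Nat.add_sub_cancel]
      ring
  · exact ⟨u * g p, r, ⟨(Nat.mul_pos (by omega) hgp).ne', i, mul_mem hg hp hu2⟩,
      ⟨hr0, i, hrU⟩, e⟩

theorem extend_card (hg : IsGadic g) (hW : IsPartition W) {n : ℕ} (k : ℕ) :
    ∀ s : Multiset ℕ, (∀ x ∈ s, x ∈ base g W \ {0}) → s.sum = n → s.card + k ≤ n →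
      ∃ t : Multiset ℕ, (∀ x ∈ t, x ∈ base g W \ {0}) ∧ t.sum = n ∧ t.card = s.card + k := by
  induction k with
  | zero => intro s h1 h2 _; exact ⟨s, h1, h2, rfl⟩
  | succ k ih =>
    intro s h1 h2 h3
    obtain ⟨x, hx, hx2⟩ : ∃ x ∈ s, 2 ≤ x := by
      by_contra hcon
      push Not at hcon
      have : s.sum ≤ s.card • 1 := Multiset.sum_le_card_nsmul s 1 fun x hx => by
        have := hcon x hx
        omega
      rw [smul_eq_mul, mul_one] at this
      omega
    obtain ⟨y, z, hy, hz, e⟩ := split_elem hg hW (h1 x hx) hx2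
    obtain ⟨t, rfl⟩ := Multiset.exists_cons_of_mem hx
    obtain ⟨t', h4, h5, h6⟩ := ih (y ::ₘ z ::ₘ t) (by
        intro w hw
        rcases Multiset.mem_cons.mp hw with rfl | hw
        · exact hy
        · rcases Multiset.mem_cons.mp hw with rfl | hw
          · exact hz
          · exact h1 w (Multiset.mem_cons_of_mem hw))
      (by
        rw [Multiset.sum_cons] at h2
        rw [Multiset.sum_cons, Multiset.sum_cons]
        omega)
      (by
        rw [Multiset.card_cons] at h3
        rw [Multiset.card_cons, Multiset.card_cons]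
        omega)
    refine ⟨t', h4, h5, ?_⟩
    rw [h6, Multiset.card_cons, Multiset.card_cons, Multiset.card_cons]
    omega

/-- `A_G(W)` is an asymptotic basis. -/
theorem zero_removable (hg : IsGadic g) (hW : IsPartition W) :
    IsAsymptoticBasis h (base g W \ {0}) := by
  classical
  refine ⟨h, fun n hn => ?_⟩
  obtain ⟨y, hy, hys⟩ := exists_parts hg hW n
  rw [mem_sumset_iff]
  set s : Multiset ℕ := ((univ : Finset (Fin h)).filter fun i => y i ≠ 0).val.map y with hs
  have hcard : s.card ≤ h := by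
    rw [hs, Multiset.card_map]
    exact (Finset.card_le_univ _).trans (by simp)
  have hsum : s.sum = n := by
    have : s.sum = ∑ i ∈ univ.filter fun i => y i ≠ 0, y i := rfl
    rw [this, Finset.sum_filter_ne_zero, hys]
  obtain ⟨t, h1, h2, h3⟩ := extend_card hg hW (n := n) (h - s.card) s (by
    intro x hx
    obtain ⟨i, hi, rfl⟩ := Multiset.mem_map.mp hx
    have := (Finset.mem_filter.mp (Finset.mem_val.mp hi)).2
    exact (base_ne_zero_iff hg).mpr ⟨this, i, hy i⟩) hsum (by omega)
  exact ⟨t, by omega, h1, h2⟩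

end

/-- The digit condition of order two. -/
def Free (g : ℕ → ℕ) (U V : Set ℕ) (a : ℕ) : Prop :=
  ∀ j ∈ V, g (j + 1) = 2 * g j ∧
    ∃ i < j, (∀ k, i ≤ k → k < j → k ∈ U) ∧ a / g i % (g (i + 1) / g i) ≠ g (i + 1) / g i - 1

theorem free_iff (hg : IsGadic g) {U V : Set ℕ} (hUV : ∀ j, j ∈ V ↔ j ∉ U) {a : ℕ}
    (ha : a ∈ Z g U) :
    (∀ J, a % g J + m g V J ≤ 2 * m g U J) ↔ Free g U V a := by
  constructor
  · intro H j hj
    have hjU : j ∉ U := (hUV j).mp hj
    have hq := q_two hg j
    have h1 := H (j + 1)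
    rw [mod_succ hg, ha j hjU, zero_mul, add_zero, m_succ_of_mem hj, m_succ_of_not hjU] at h1
    have h2 := m_lt hg U j
    have hq2 : q g j = 2 := by
      by_contra hne
      have : 2 * g j ≤ (q g j - 1) * g j := Nat.mul_le_mul_right _ (by omega)
      omega
    refine ⟨by rw [g_succ hg, hq2, mul_comm], ?_⟩
    by_contra hcon
    push Not at hcon
    rw [hq2] at h1
    have key : ∀ n ≤ j, (∀ k, j - n ≤ k → k < j → k ∈ U) ∧
        g (j - n) + m g V (j - n) + a % g (j - n) ≤ 2 * m g U (j - n) := by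
      intro n
      induction n with
      | zero =>
        intro _
        refine ⟨fun k h1 h2 => by omega, ?_⟩
        simp only [Nat.sub_zero]
        omega
      | succ n ih =>
        intro hn
        obtain ⟨h3, h4⟩ := ih (by omega)
        set i := j - (n + 1) with hi
        have e : j - n = i + 1 := by omega
        rw [e] at h3 h4
        have hiU : i ∈ U := by
          by_contra hiU
          have hiV : i ∈ V := (hUV i).mpr hiU
          rw [m_succ_of_not hiU, m_succ_of_mem hiV] at h4
          have h5 := m_lt hg U i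
          have h6 := q_two hg i
          have h7 : 1 * g i ≤ (q g i - 1) * g i := Nat.mul_le_mul_right _ (by omega)
          have h8 : 2 * g i ≤ q g i * g i := Nat.mul_le_mul_right _ h6
          have h9 := g_succ hg i
          rw [mul_comm] at h9
          omega
        have hall : ∀ k, i ≤ k → k < j → k ∈ U := by
          intro k hk1 hk2
          rcases Nat.eq_or_lt_of_le hk1 with h | h
          · exact h ▸ hiU
          · exact h3 k h hk2
        refine ⟨hall, ?_⟩
        have hd : dig g a i = q g i - 1 := hcon i (by omega) hall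
        have hiV : i ∉ V := fun h' => (hUV i).mp h' hiU
        rw [m_succ_of_mem hiU, m_succ_of_not hiV, mod_succ hg, hd, g_pred hg] at h4
        omega
    have := (key j le_rfl).2
    rw [Nat.sub_self, hg.zero, m_zero, m_zero] at this
    omega
  · intro H
    have key : ∀ J, a % g J + m g V J ≤ 2 * m g U J ∧
        ((∃ i < J, (∀ k, i ≤ k → k < J → k ∈ U) ∧ dig g a i ≠ q g i - 1) →
          a % g J + m g V J + g J ≤ 2 * m g U J) := by
      intro J
      induction J with
      | zero =>
        refine ⟨by simp [hg.zero, Nat.mod_one, m_zero], ?_⟩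
        rintro ⟨i, hi, _⟩
        omega
      | succ J ih =>
        obtain ⟨h1, h2⟩ := ih
        by_cases hJ : J ∈ U
        · have hJV : J ∉ V := fun h' => (hUV J).mp h' hJ
          rw [m_succ_of_mem hJ, m_succ_of_not hJV, mod_succ hg]
          have h3 := dig_lt hg a J
          have h4 : dig g a J * g J ≤ (q g J - 1) * g J := Nat.mul_le_mul_right _ (by omega)
          refine ⟨by omega, ?_⟩
          rintro ⟨i, hi, hiU, hid⟩
          rw [g_pred hg]
          rcases Nat.lt_succ_iff_lt_or_eq.mp hi with h | rfl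
          · have := h2 ⟨i, h, fun k hk1 hk2 => hiU k hk1 (by omega), hid⟩
            omega
          · have h5 : (dig g a i + 1) * g i ≤ (q g i - 1) * g i :=
              Nat.mul_le_mul_right _ (by omega)
            have h6 : (dig g a i + 1) * g i = dig g a i * g i + g i := by ring
            omega
        · have hJV : J ∈ V := (hUV J).mpr hJ
          obtain ⟨h3, h4⟩ := H J hJV
          have h5 := h2 h4
          rw [m_succ_of_not hJ, m_succ_of_mem hJV, mod_succ hg, ha J hJ, zero_mul, add_zero]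
          have hq2 : q g J = 2 := by
            unfold q
            rw [h3, Nat.mul_div_cancel _ (hg.pos J)]
          rw [hq2]
          refine ⟨by omega, ?_⟩
          rintro ⟨i, hi, hiU, _⟩
          exact absurd (hiU J (by omega) (by omega)) hJ
    exact fun J => (key J).1

end Pool.Agent.Q136.GA
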